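import Mathlib

/-!
# Strong partial clones on a two element set: basic constructions

Used for MP_2f3cff_al.
-/

set_option autoImplicit false

namespace Pool.Agent.Q266.SPC

/-- Partial functions on `Bool` of arity `n + 1`. -/
abbrev PF (n : ℕ) : Type := (Fin (n + 1) → Bool) → Option Bool

/-- Total functions on `Bool` of arity `n + 1`. -/
abbrev TF (n : ℕ) : Type := (Fin (n + 1) → Bool) → Bool

/-- Sets of partial functions, sorted by arity. -/
abbrev Fam : Type := (n : ℕ) → Set (PF n)

/-- Sets of total functions, sorted by arity. -/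
abbrev TFam : Type := (n : ℕ) → Set (TF n)

/-- `h` is the composition `f(g_0, ..., g_n)`. -/
def IsComp {n m : ℕ} (h : PF m) (f : PF n) (g : Fin (n + 1) → PF m) : Prop :=
  ∀ x b, h x = some b ↔ ∃ y : Fin (n + 1) → Bool, (∀ i, g i x = some (y i)) ∧ f y = some b

/-- Partial clones. -/
structure IsPC (X : Fam) : Prop where
  proj : ∀ (n : ℕ) (i : Fin (n + 1)), (fun x : Fin (n + 1) → Bool => some (x i)) ∈ X n
  comp : ∀ (n m : ℕ) (f : PF n) (g : Fin (n + 1) → PF m) (h : PF m),
    f ∈ X n → (∀ i, g i ∈ X m) → IsComp h f g → h ∈ X m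

/-- `h` is a restriction of `f`. -/
def Below {n : ℕ} (h f : PF n) : Prop := ∀ x b, h x = some b → f x = some b

/-- Strong families. -/
def IsStrong (X : Fam) : Prop := ∀ (n : ℕ) (f h : PF n), f ∈ X n → Below h f → h ∈ X n

/-- Clones of total functions. -/
structure IsClone (C : TFam) : Prop where
  proj : ∀ (n : ℕ) (i : Fin (n + 1)), (fun x : Fin (n + 1) → Bool => x i) ∈ C n
  comp : ∀ (n m : ℕ) (f : TF n) (g : Fin (n + 1) → TF m),
    f ∈ C n → (∀ i, g i ∈ C m) → (fun x : Fin (m + 1) → Bool => f (fun i => g i x)) ∈ C m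

/-- The total functions in `X` are those of `C`. -/
def HasTotalPart (X : Fam) (C : TFam) : Prop :=
  ∀ (n : ℕ) (f : TF n), f ∈ C n ↔ (fun x => some (f x)) ∈ X n

/-- The strong partial clones with total part `C`. -/
def IStr (C : TFam) : Set Fam := {X | IsPC X ∧ IsStrong X ∧ HasTotalPart X C}

/-- There is an order embedding of `IStr C` into `IStr D`. -/
def Emb (C D : TFam) : Prop := Nonempty (IStr C ↪o IStr D)

/-- Substituting total functions of `C` in a member of `X`. -/
theorem sub {C : TFam} {X : Fam} (hX : X ∈ IStr C) {n m : ℕ} {f : PF n} (hf : f ∈ X n)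
    {g : Fin (n + 1) → TF m} (hg : ∀ i, g i ∈ C m) :
    (fun x : Fin (m + 1) → Bool => f (fun i => g i x)) ∈ X m := by
  refine hX.1.comp n m f (fun i x => some (g i x)) _ hf (fun i => (hX.2.2 m (g i)).1 (hg i)) ?_
  intro x b
  constructor
  · intro h
    exact ⟨fun i => g i x, fun i => rfl, h⟩
  · rintro ⟨y, hy, h⟩
    have : (fun i => g i x) = y := by
      funext i
      exact Option.some.inj (hy i)
    show f (fun i => g i x) = some b
    rw [this]
    exact h

/-- If a substitution of functions of `C` in a member of `X` is total, it belongs to `C`. -/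
theorem sub_total {C : TFam} {X : Fam} (hX : X ∈ IStr C) {n m : ℕ} {f : PF n} (hf : f ∈ X n)
    {g : Fin (n + 1) → TF m} (hg : ∀ i, g i ∈ C m) (t : TF m)
    (ht : ∀ x, f (fun i => g i x) = some (t x)) : t ∈ C m := by
  rw [hX.2.2 m t]
  have h := sub hX hf hg
  have e : (fun x : Fin (m + 1) → Bool => f (fun i => g i x)) = fun x => some (t x) := by
    funext x
    exact ht x
  rwa [e] at h

theorem strong_mem {C : TFam} {X : Fam} (hX : X ∈ IStr C) {n : ℕ} {f h : PF n} (hf : f ∈ X n)
    (hb : Below h f) : h ∈ X n := hX.2.1 n f h hf hb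

/-- A restriction of a total function of `C` lies in every member of `IStr C`. -/
theorem str_mem {C : TFam} {X : Fam} (hX : X ∈ IStr C) {n : ℕ} {h : PF n} {t : TF n}
    (ht : t ∈ C n) (hb : ∀ x b, h x = some b → t x = b) : h ∈ X n := by
  refine hX.2.1 n (fun x => some (t x)) h ((hX.2.2 n t).1 ht) ?_
  intro x b hx
  simp [hb x b hx]

/-- The largest member of `IStr D`. -/
def Q (D : TFam) : Fam := fun n => {h | ∀ (m : ℕ) (g : Fin (n + 1) → TF m) (t : TF m),
  (∀ i, g i ∈ D m) → (∀ x, h (fun i => g i x) = some (t x)) → t ∈ D m}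

theorem mem_Q {D : TFam} {n : ℕ} {h : PF n} : h ∈ Q D n ↔
    ∀ (m : ℕ) (g : Fin (n + 1) → TF m) (t : TF m),
      (∀ i, g i ∈ D m) → (∀ x, h (fun i => g i x) = some (t x)) → t ∈ D m := Iff.rfl

theorem Q_mem {D : TFam} (hD : IsClone D) : Q D ∈ IStr D := by
  refine ⟨⟨?_, ?_⟩, ?_, ?_⟩
  · intro n i m g t hg ht
    have : t = g i := by
      funext x
      exact (Option.some.inj (ht x)).symm
    rw [this]
    exact hg i
  · intro n m f k h hf hk hc l g t hg ht
    have h1 : ∀ x, ∃ y : Fin (n + 1) → Bool,
        (∀ i, k i (fun j => g j x) = some (y i)) ∧ f y = some (t x) := fun x =>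
      (hc _ _).1 (ht x)
    choose y hy hfy using h1
    have h2 : ∀ i, (fun x => y x i) ∈ D l := fun i =>
      hk i l g (fun x => y x i) hg (fun x => hy x i)
    exact hf l (fun i x => y x i) t h2 (fun x => hfy x)
  · intro n f h hf hb m g t hg ht
    exact hf m g t hg (fun x => hb _ _ (ht x))
  · intro n f
    constructor
    · intro hf m g t hg ht
      have : t = fun x => f (fun i => g i x) := by
        funext x
        exact (Option.some.inj (ht x)).symm
      rw [this]
      exact hD.comp n m f g hf hg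
    · intro hf
      exact hf n (fun i x => x i) f (fun i => hD.proj n i) (fun x => rfl)

theorem le_Q {D : TFam} {X : Fam} (hX : X ∈ IStr D) (n : ℕ) : X n ⊆ Q D n := by
  intro f hf m g t hg ht
  exact sub_total hX hf hg t ht

/-- The intersection of two families. -/
def inter (X Y : Fam) : Fam := fun n => X n ∩ Y n

theorem inter_mem {C D : TFam} (hD : IsClone D) (h : ∀ n, D n ⊆ C n) {X : Fam}
    (hX : X ∈ IStr C) : inter X (Q D) ∈ IStr D := by
  have hQ := Q_mem hD
  refine ⟨⟨fun n i => ⟨hX.1.proj n i, hQ.1.proj n i⟩, ?_⟩, ?_, ?_⟩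
  · intro n m f g k hf hg hc
    exact ⟨hX.1.comp n m f g k hf.1 (fun i => (hg i).1) hc,
      hQ.1.comp n m f g k hf.2 (fun i => (hg i).2) hc⟩
  · intro n f k hf hb
    exact ⟨hX.2.1 n f k hf.1 hb, hQ.2.1 n f k hf.2 hb⟩
  · intro n f
    constructor
    · intro hf
      exact ⟨(hX.2.2 n f).1 (h n hf), (hQ.2.2 n f).1 hf⟩
    · intro hf
      exact (hQ.2.2 n f).2 hf.2

/-- The map `X ↦ X ∩ Q D` is an order embedding as soon as it reflects the order. -/
theorem emb_of_reflect {C D : TFam} (hD : IsClone D) (h : ∀ n, D n ⊆ C n)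
    (hr : ∀ X ∈ IStr C, ∀ Y ∈ IStr C, (∀ n, ∀ f ∈ X n, f ∈ Q D n → f ∈ Y n) →
      ∀ n, ∀ f ∈ X n, f ∈ Y n) : Emb C D := by
  refine ⟨⟨⟨fun X => ⟨inter X.1 (Q D), inter_mem hD h X.2⟩, ?_⟩, ?_⟩⟩
  · intro X Y hXY
    have e : inter X.1 (Q D) = inter Y.1 (Q D) := congrArg Subtype.val hXY
    apply Subtype.ext
    funext n
    ext f
    constructor
    · intro hf
      refine hr X.1 X.2 Y.1 Y.2 ?_ n f hf
      intro m k hk hkQ
      have : k ∈ inter X.1 (Q D) m := ⟨hk, hkQ⟩
      rw [e] at this
      exact this.1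
    · intro hf
      refine hr Y.1 Y.2 X.1 X.2 ?_ n f hf
      intro m k hk hkQ
      have : k ∈ inter Y.1 (Q D) m := ⟨hk, hkQ⟩
      rw [← e] at this
      exact this.1
  · intro X Y
    constructor
    · intro hXY n f hf
      refine hr X.1 X.2 Y.1 Y.2 ?_ n f hf
      intro m k hk hkQ
      have : k ∈ inter Y.1 (Q D) m := hXY m ⟨hk, hkQ⟩
      exact this.1
    · intro hXY n f hf
      exact ⟨hXY n hf.1, hf.2⟩

theorem const_mem {C : TFam} (hC : IsClone C) (b : Bool) (m k : ℕ)
    (h : (fun _ => b : TF m) ∈ C m) : (fun _ => b : TF k) ∈ C k :=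
  hC.comp m k (fun _ => b) (fun _ x => x 0) h (fun _ => hC.proj k 0)

/-- A constant in `C` but not in `D` gives an embedding. -/
theorem emb_of_const {C D : TFam} (hC : IsClone C) (hD : IsClone D) (h : ∀ n, D n ⊆ C n)
    (c : Bool) (h1 : (fun _ => c : TF 0) ∈ C 0) (h2 : (fun _ => c : TF 0) ∉ D 0) : Emb C D := by
  refine emb_of_reflect hD h ?_
  intro X hX Y hY hXY n f hf
  -- the auxiliary function
  let f' : PF (n + 1) := fun x => if x 0 = c then f (fun i => x i.succ) else none
  have hf'X : f' ∈ X (n + 1) := by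
    refine strong_mem hX (sub hX hf (g := fun i x => x i.succ)
      (fun i => hC.proj (n + 1) i.succ)) ?_
    intro x b hx
    by_cases h0 : x 0 = c
    · simpa [f', h0] using hx
    · simp [f', h0] at hx
  have hf'Q : f' ∈ Q D (n + 1) := by
    intro m g t hg ht
    exfalso
    apply h2
    have h3 : g 0 = fun _ => c := by
      funext x
      by_contra hne
      have := ht x
      simp [f', hne] at this
    have h4 := hg 0
    rw [h3] at h4
    exact const_mem hD c m 0 h4
  have hf'Y := hXY _ f' hf'X hf'Q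
  have h5 := sub hY hf'Y (m := n)
    (g := Fin.cons (fun _ => c) (fun i x => x i)) (by
      intro i
      refine Fin.cases ?_ ?_ i
      · exact const_mem hC c 0 n h1
      · intro j
        exact hC.proj n j)
  have e : (fun x : Fin (n + 1) → Bool => f' (fun i =>
      (Fin.cons (fun _ => c) (fun i x => x i) : Fin (n + 1 + 1) → TF n) i x)) = f := by
    funext x
    simp [f']
  rwa [e] at h5

/-- The negation in `C` but not in `D`, and not both constants in `D`, gives an embedding. -/
theorem emb_of_neg {C D : TFam} (hC : IsClone C) (hD : IsClone D) (h : ∀ n, D n ⊆ C n)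
    (h1 : (fun x => !(x 0) : TF 0) ∈ C 0) (h2 : (fun x => !(x 0) : TF 0) ∉ D 0)
    (h3 : ¬ ((fun _ => true : TF 0) ∈ D 0 ∧ (fun _ => false : TF 0) ∈ D 0)) : Emb C D := by
  refine emb_of_reflect hD h ?_
  intro X hX Y hY hXY n f hf
  let f' : PF (n + 2) := fun x => if x 0 = !(x 1) then f (fun i => x i.succ.succ) else none
  have hf'X : f' ∈ X (n + 2) := by
    refine strong_mem hX (sub hX hf (g := fun i x => x i.succ.succ)
      (fun i => hC.proj (n + 2) i.succ.succ)) ?_
    intro x b hx
    by_cases h0 : x 0 = !(x 1)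
    · simp only [f', h0, if_true] at hx
      exact hx
    · simp only [f', h0, if_false] at hx
      exact absurd hx (by simp)
  have hf'Q : f' ∈ Q D (n + 2) := by
    intro m g t hg ht
    exfalso
    have h4 : ∀ x, g 0 x = !(g 1 x) := by
      intro x
      by_contra hne
      have h5 := ht x
      simp only [f', hne, if_false] at h5
      exact absurd h5 (by simp)
    -- unary versions
    have u0 := hD.comp m 0 (g 0) (fun _ x => x 0) (hg 0) (fun _ => hD.proj 0 0)
    have u1 := hD.comp m 0 (g 1) (fun _ x => x 0) (hg 1) (fun _ => hD.proj 0 0)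
    have key : ∀ x : Fin 1 → Bool, x = fun _ => x 0 := by
      intro x
      funext i
      rw [Subsingleton.elim i 0]
    -- case analysis on the unary function
    have hv : ∀ (k : TF m) (a b : Bool), k (fun _ => false) = a → k (fun _ => true) = b →
        (fun x : Fin 1 → Bool => k (fun _ => x 0)) = fun x => if x 0 then b else a := by
      intro k a b ha hb
      funext x
      cases hx : x 0 <;> simp [ha, hb]
    rcases h5 : g 1 (fun _ => false) with _ | _ <;> rcases h6 : g 1 (fun _ => true) with _ | _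
    · apply h3
      have e1 := hv (g 1) _ _ h5 h6
      have e0 := hv (g 0) true true (by rw [h4, h5]; rfl) (by rw [h4, h6]; rfl)
      refine ⟨?_, ?_⟩
      · have : (fun x : Fin 1 → Bool => g 0 (fun _ => x 0)) = fun _ => true := by
          rw [e0]; funext x; simp
        rw [← this]; exact u0
      · have : (fun x : Fin 1 → Bool => g 1 (fun _ => x 0)) = fun _ => false := by
          rw [e1]; funext x; simp
        rw [← this]; exact u1
    · apply h2
      have e0 := hv (g 0) true false (by rw [h4, h5]; rfl) (by rw [h4, h6]; rfl)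
      have : (fun x : Fin 1 → Bool => g 0 (fun _ => x 0)) = fun x => !(x 0) := by
        rw [e0]; funext x; cases x 0 <;> simp
      rw [← this]; exact u0
    · apply h2
      have e1 := hv (g 1) _ _ h5 h6
      have : (fun x : Fin 1 → Bool => g 1 (fun _ => x 0)) = fun x => !(x 0) := by
        rw [e1]; funext x; cases x 0 <;> simp
      rw [← this]; exact u1
    · apply h3
      have e1 := hv (g 1) _ _ h5 h6
      have e0 := hv (g 0) false false (by rw [h4, h5]; rfl) (by rw [h4, h6]; rfl)
      refine ⟨?_, ?_⟩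
      · have : (fun x : Fin 1 → Bool => g 1 (fun _ => x 0)) = fun _ => true := by
          rw [e1]; funext x; simp
        rw [← this]; exact u1
      · have : (fun x : Fin 1 → Bool => g 0 (fun _ => x 0)) = fun _ => false := by
          rw [e0]; funext x; simp
        rw [← this]; exact u0
  have hf'Y := hXY _ f' hf'X hf'Q
  have h5 := sub hY hf'Y (m := n)
    (g := Fin.cons (fun x => !(x 0)) (Fin.cons (fun x => x 0) (fun i x => x i))) (by
      intro i
      refine Fin.cases ?_ ?_ i
      · exact hC.comp 0 n (fun x => !(x 0)) (fun _ x => x 0) h1 (fun _ => hC.proj n 0)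
      · intro j
        refine Fin.cases ?_ ?_ j
        · exact hC.proj n 0
        · intro k
          exact hC.proj n k)
  have e : (fun x : Fin (n + 1) → Bool => f' (fun i =>
      (Fin.cons (fun x => !(x 0)) (Fin.cons (fun x => x 0) (fun i x => x i)) :
        Fin (n + 1 + 1 + 1) → TF n) i x)) = f := by
    funext x
    show (if (!(x 0)) = !(x 0) then f (fun i => x i) else none) = f x
    rw [if_pos rfl]
  rwa [e] at h5

/-- If every member of a member of `IStr C` is a restriction of a function of `C` or lies in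
`Q D`, there is an embedding. -/
theorem emb_of_str {C D : TFam} (hD : IsClone D) (h : ∀ n, D n ⊆ C n)
    (hs : ∀ X ∈ IStr C, ∀ n, ∀ f ∈ X n, f ∈ Q D n ∨ ∃ t ∈ C n, ∀ x b, f x = some b → t x = b) :
    Emb C D := by
  refine emb_of_reflect hD h ?_
  intro X hX Y hY hXY n f hf
  rcases hs X hX n f hf with h1 | ⟨t, ht, h1⟩
  · exact hXY n f hf h1
  · exact str_mem hY ht h1

theorem emb_refl (C : TFam) : Emb C C := ⟨RelEmbedding.refl _⟩

end Pool.Agent.Q266.SPC
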