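import Pool.Agent.Q266.SPC.Graph

/-!
# Duality
-/

set_option autoImplicit false

namespace Pool.Agent.Q266.SPC

/-- The dual of a total function. -/
def dT {n : ℕ} (f : TF n) : TF n := fun x => !(f (fun k => !(x k)))

/-- The dual of a partial function. -/
def dP {n : ℕ} (f : PF n) : PF n := fun x => (f (fun k => !(x k))).map (fun b => !b)

/-- The dual of a set of total functions. -/
def dTF (C : TFam) : TFam := fun n => {f | dT f ∈ C n}

/-- The dual of a set of partial functions. -/
def dF (X : Fam) : Fam := fun n => {f | dP f ∈ X n}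

theorem dT_dT {n : ℕ} (f : TF n) : dT (dT f) = f := by
  funext x
  simp [dT]

theorem dP_dP {n : ℕ} (f : PF n) : dP (dP f) = f := by
  funext x
  simp only [dP, Bool.not_not, Option.map_map]
  have : ((fun b : Bool => !b) ∘ fun b : Bool => !b) = id := by
    funext b
    simp
  rw [this, Option.map_id]
  rfl

theorem dTF_dTF (C : TFam) : dTF (dTF C) = C := by
  funext n
  ext f
  show dT (dT f) ∈ C n ↔ f ∈ C n
  rw [dT_dT]

theorem dF_dF (X : Fam) : dF (dF X) = X := by
  funext n
  ext f
  show dP (dP f) ∈ X n ↔ f ∈ X n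
  rw [dP_dP]

theorem dP_some {n : ℕ} (f : PF n) (x : Fin (n + 1) → Bool) (b : Bool) :
    dP f x = some b ↔ f (fun k => !(x k)) = some (!b) := by
  unfold dP
  rcases f (fun k => !(x k)) with _ | c
  · simp
  · cases b <;> cases c <;> simp

theorem isClone_dual {C : TFam} (hC : IsClone C) : IsClone (dTF C) := by
  refine ⟨?_, ?_⟩
  · intro n i
    show dT _ ∈ C n
    have e : dT (fun x : Fin (n + 1) → Bool => x i) = fun x => x i := by
      funext x
      simp [dT]
    rw [e]
    exact hC.proj n i
  · intro n m f g hf hg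
    show dT _ ∈ C m
    have e : dT (fun x : Fin (m + 1) → Bool => f (fun i => g i x)) =
        fun x => dT f (fun i => dT (g i) x) := by
      funext x
      simp [dT]
    rw [e]
    exact hC.comp n m (dT f) (fun i => dT (g i)) hf hg

theorem isComp_dual {n m : ℕ} {h : PF m} {f : PF n} {g : Fin (n + 1) → PF m} (hc : IsComp h f g) :
    IsComp (dP h) (dP f) (fun i => dP (g i)) := by
  intro x b
  rw [dP_some, hc]
  constructor
  · rintro ⟨y, hy, hf⟩
    refine ⟨fun i => !(y i), ?_, ?_⟩
    · intro i
      rw [dP_some, hy i]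
      simp
    · rw [dP_some]
      simpa using hf
  · rintro ⟨y, hy, hf⟩
    refine ⟨fun i => !(y i), ?_, ?_⟩
    · intro i
      exact (dP_some _ _ _).1 (hy i)
    · exact (dP_some _ _ _).1 hf

theorem mem_dual {C : TFam} {X : Fam} (hX : X ∈ IStr C) : dF X ∈ IStr (dTF C) := by
  refine ⟨⟨?_, ?_⟩, ?_, ?_⟩
  · intro n i
    show dP _ ∈ X n
    have e : dP (fun x : Fin (n + 1) → Bool => some (x i)) = fun x => some (x i) := by
      funext x
      simp [dP]
    rw [e]
    exact hX.1.proj n i
  · intro n m f g h hf hg hc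
    exact hX.1.comp n m (dP f) (fun i => dP (g i)) (dP h) hf hg (isComp_dual hc)
  · intro n f h hf hb
    refine hX.2.1 n (dP f) (dP h) hf ?_
    intro x b hx
    rw [dP_some] at hx ⊢
    exact hb _ _ hx
  · intro n f
    show dT f ∈ C n ↔ dP (fun x => some (f x)) ∈ X n
    rw [hX.2.2 n (dT f)]
    have e : dP (fun x : Fin (n + 1) → Bool => some (f x)) = fun x => some (dT f x) := by
      funext x
      simp [dP, dT]
    rw [e]

/-- The duality as an order embedding. -/
def dualEmb (C : TFam) : IStr C ↪o IStr (dTF C) where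
  toFun X := ⟨dF X.1, mem_dual X.2⟩
  inj' := by
    intro X Y h
    have e : dF X.1 = dF Y.1 := congrArg Subtype.val h
    apply Subtype.ext
    rw [← dF_dF X.1, e, dF_dF]
  map_rel_iff' := by
    intro X Y
    constructor
    · intro h n f hf
      have h1 := h n (a := dP f) (by
        show dP (dP f) ∈ X.1 n
        rw [dP_dP]
        exact hf)
      have h2 : dP (dP f) ∈ Y.1 n := h1
      rwa [dP_dP] at h2
    · intro h n f hf
      exact h n hf

theorem emb_dual {C D : TFam} (h : Emb (dTF C) (dTF D)) : Emb C D := by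
  obtain ⟨e⟩ := h
  have e2 := dualEmb (dTF D)
  rw [dTF_dTF] at e2
  exact ⟨((dualEmb C).trans e).trans e2⟩

/-- If any two points with value false share a zero, the intervals embed in that of `D`. -/
theorem emb_T12 {D : TFam} (hD : IsClone D)
    (h : ∀ n, ∀ t ∈ D n, ∀ x y, t x = false → t y = false → ∃ k, x k = false ∧ y k = false)
    (C : TFam) : Emb C D := by
  apply emb_dual
  refine emb_T02 (isClone_dual hD) ?_ _
  intro n t ht x y hx hy
  obtain ⟨k, hk1, hk2⟩ := h n (dT t) ht (fun k => !(x k)) (fun k => !(y k))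
    (by simp [dT, hx]) (by simp [dT, hy])
  exact ⟨k, by simpa using hk1, by simpa using hk2⟩

/-- If all members of `D` preserve joins, the intervals embed in that of `D`. -/
theorem emb_Vee {D : TFam} (hD : IsClone D)
    (h : ∀ n, ∀ t ∈ D n, ∀ x y, t (fun k => x k || y k) = (t x || t y)) (C : TFam) : Emb C D := by
  apply emb_dual
  refine emb_Lam (isClone_dual hD) ?_ _
  intro n t ht x y
  have := h n (dT t) ht (fun k => !(x k)) (fun k => !(y k))
  have e : (fun k => !(!(x k) || !(y k))) = fun k => (x k && y k) := by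
    funext k
    simp
  simp only [dT, e, Bool.not_not] at this
  have h2 := congrArg (fun b => !b) this
  simpa using h2

end Pool.Agent.Q266.SPC
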