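import Pool.Agent.Q266.SPC.Base

/-!
# Generating sets of some clones of Boolean functions
-/

set_option autoImplicit false

namespace Pool.Agent.Q266.SPC

/-- Closure under a unary operation. -/
def Cl1 (E : TFam) (u : Bool → Bool) : Prop := ∀ n, ∀ f ∈ E n, (fun x => u (f x)) ∈ E n

/-- Closure under a binary operation. -/
def Cl2 (E : TFam) (u : Bool → Bool → Bool) : Prop :=
  ∀ n, ∀ f ∈ E n, ∀ g ∈ E n, (fun x => u (f x) (g x)) ∈ E n

/-- Closure under a ternary operation. -/
def Cl3 (E : TFam) (u : Bool → Bool → Bool → Bool) : Prop :=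
  ∀ n, ∀ f ∈ E n, ∀ g ∈ E n, ∀ h ∈ E n, (fun x => u (f x) (g x) (h x)) ∈ E n

theorem Cl1.of_mem {E : TFam} (hE : IsClone E) {t : TF 0} (ht : t ∈ E 0) {u : Bool → Bool}
    (e : ∀ x, t (fun _ => x) = u x) : Cl1 E u := by
  intro n f hf
  have := hE.comp 0 n t (fun _ => f) ht (fun _ => hf)
  have e' : (fun x : Fin (n + 1) → Bool => t (fun _ => f x)) = fun x => u (f x) := by
    funext x
    rw [e]
  rwa [e'] at this

theorem Cl2.of_mem {E : TFam} (hE : IsClone E) {t : TF 1} (ht : t ∈ E 1) {u : Bool → Bool → Bool}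
    (e : ∀ x y, t ![x, y] = u x y) : Cl2 E u := by
  intro n f hf g hg
  have := hE.comp 1 n t ![f, g] ht (by
    intro i
    fin_cases i
    · exact hf
    · exact hg)
  have e' : (fun x : Fin (n + 1) → Bool => t (fun i => (![f, g] : Fin 2 → TF n) i x)) =
      fun x => u (f x) (g x) := by
    funext x
    rw [← e]
    congr 1
    funext i
    fin_cases i <;> rfl
  rwa [e'] at this

theorem Cl3.of_mem {E : TFam} (hE : IsClone E) {t : TF 2} (ht : t ∈ E 2)
    {u : Bool → Bool → Bool → Bool} (e : ∀ x y z, t ![x, y, z] = u x y z) : Cl3 E u := by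
  intro n f hf g hg h hh
  have := hE.comp 2 n t ![f, g, h] ht (by
    intro i
    fin_cases i
    · exact hf
    · exact hg
    · exact hh)
  have e' : (fun x : Fin (n + 1) → Bool => t (fun i => (![f, g, h] : Fin 3 → TF n) i x)) =
      fun x => u (f x) (g x) (h x) := by
    funext x
    rw [← e]
    congr 1
    funext i
    fin_cases i <;> rfl
  rwa [e'] at this

theorem Cl2.congr {E : TFam} {u v : Bool → Bool → Bool} (h : Cl2 E u) (e : ∀ x y, u x y = v x y) :
    Cl2 E v := by
  have : u = v := by funext x y; exact e x y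
  rwa [← this]

theorem Cl3.congr {E : TFam} {u v : Bool → Bool → Bool → Bool} (h : Cl3 E u)
    (e : ∀ x y z, u x y z = v x y z) : Cl3 E v := by
  have : u = v := by funext x y z; exact e x y z
  rwa [← this]

/-- The majority function. -/
def maj (a b c : Bool) : Bool := (a && b) || (a && c) || (b && c)

/-- The minority function. -/
def mnr (a b c : Bool) : Bool := a ^^ b ^^ c

/-- Interpolation on pairs and the majority function give membership (Baker–Pixley). -/
theorem bp {E : TFam} (hE : IsClone E) (hm : Cl3 E maj) {n : ℕ} (f : TF n)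
    (h2 : ∀ a b, ∃ g ∈ E n, g a = f a ∧ g b = f b) : f ∈ E n := by
  classical
  have key : ∀ k : ℕ, ∀ T : Finset (Fin (n + 1) → Bool), T.card ≤ k + 2 →
      ∃ g ∈ E n, ∀ x ∈ T, g x = f x := by
    intro k
    induction k with
    | zero =>
      intro T hT
      rcases Nat.lt_or_ge T.card 2 with h | h
      · rcases Nat.lt_or_ge T.card 1 with h0 | h0
        · have : T = ∅ := Finset.card_eq_zero.1 (by omega)
          subst this
          exact ⟨fun x => x 0, hE.proj n 0, fun x hx => absurd hx (by simp)⟩
        · obtain ⟨a, rfl⟩ := Finset.card_eq_one.1 (show T.card = 1 by omega)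
          obtain ⟨g, hg, h1, -⟩ := h2 a a
          exact ⟨g, hg, fun x hx => by rw [Finset.mem_singleton.1 hx]; exact h1⟩
      · obtain ⟨a, b, -, rfl⟩ := Finset.card_eq_two.1 (show T.card = 2 by omega)
        obtain ⟨g, hg, h1, h3⟩ := h2 a b
        refine ⟨g, hg, fun x hx => ?_⟩
        rcases Finset.mem_insert.1 hx with hx | hx
        · rw [hx]; exact h1
        · rw [Finset.mem_singleton.1 hx]; exact h3
    | succ k ih =>
      intro T hT
      rcases Nat.lt_or_ge 2 T.card with h | h
      · obtain ⟨a, ha, b, hb, c, hc, hab, hac, hbc⟩ := Finset.two_lt_card.1 h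
        obtain ⟨g1, hg1, e1⟩ := ih (T.erase a) (by rw [Finset.card_erase_of_mem ha]; omega)
        obtain ⟨g2, hg2, e2⟩ := ih (T.erase b) (by rw [Finset.card_erase_of_mem hb]; omega)
        obtain ⟨g3, hg3, e3⟩ := ih (T.erase c) (by rw [Finset.card_erase_of_mem hc]; omega)
        refine ⟨_, hm n g1 hg1 g2 hg2 g3 hg3, fun x hx => ?_⟩
        by_cases xa : x = a
        · rw [e2 x (Finset.mem_erase.2 ⟨by rw [xa]; exact hab, hx⟩),
            e3 x (Finset.mem_erase.2 ⟨by rw [xa]; exact hac, hx⟩)]
          cases g1 x <;> cases f x <;> rfl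
        · by_cases xb : x = b
          · rw [e1 x (Finset.mem_erase.2 ⟨xa, hx⟩),
              e3 x (Finset.mem_erase.2 ⟨by rw [xb]; exact hbc, hx⟩)]
            cases g2 x <;> cases f x <;> rfl
          · rw [e1 x (Finset.mem_erase.2 ⟨xa, hx⟩), e2 x (Finset.mem_erase.2 ⟨xb, hx⟩)]
            cases g3 x <;> cases f x <;> rfl
      · exact ih T (by omega)
  obtain ⟨g, hg, e⟩ := key ((Finset.univ : Finset (Fin (n + 1) → Bool)).card) Finset.univ
    (by omega)
  have : g = f := funext (fun x => e x (Finset.mem_univ x))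
  rwa [← this]

theorem maj_of {E : TFam} (h1 : Cl2 E (· && ·)) (h2 : Cl2 E (· || ·)) : Cl3 E maj := by
  intro n f hf g hg h hh
  exact h2 n _ (h2 n _ (h1 n f hf g hg) _ (h1 n f hf h hh)) _ (h1 n g hg h hh)

/-- All functions. -/
theorem gen_all {E : TFam} (hE : IsClone E) (h1 : Cl2 E (· && ·)) (h2 : Cl1 E (! ·)) {n : ℕ}
    (f : TF n) : f ∈ E n := by
  have hor : Cl2 E (· || ·) := by
    intro n f hf g hg
    have := h2 n _ (h1 n _ (h2 n f hf) _ (h2 n g hg))
    simpa using this
  have hf0 : (fun _ => false : TF n) ∈ E n := by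
    have := h1 n _ (hE.proj n 0) _ (h2 n _ (hE.proj n 0))
    simpa using this
  have hf1 : (fun _ => true : TF n) ∈ E n := by
    have := h2 n _ hf0
    simpa using this
  apply bp hE (maj_of h1 hor)
  intro a b
  by_cases hab : f a = f b
  · cases h : f a
    · exact ⟨_, hf0, by simp, by rw [← hab, h]⟩
    · exact ⟨_, hf1, by simp, by rw [← hab, h]⟩
  · obtain ⟨j, hj⟩ : ∃ j, a j ≠ b j := by
      by_contra hcon
      push Not at hcon
      exact hab (by rw [funext hcon])
    by_cases h3 : a j = f a
    · refine ⟨_, hE.proj n j, h3, ?_⟩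
      show b j = f b
      revert hj hab h3
      cases a j <;> cases b j <;> cases f a <;> cases f b <;> simp
    · refine ⟨_, h2 n _ (hE.proj n j), ?_, ?_⟩
      · show (!(a j)) = f a
        revert h3
        cases a j <;> cases f a <;> simp
      · show (!(b j)) = f b
        revert hj hab h3
        cases a j <;> cases b j <;> cases f a <;> cases f b <;> simp

/-- Monotone functions. -/
def Mono {n : ℕ} (f : TF n) : Prop :=
  ∀ a b : Fin (n + 1) → Bool, (∀ k, a k = true → b k = true) → f a = true → f b = true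

theorem Mono.idx {n : ℕ} {f : TF n} (hf : Mono f) {a b : Fin (n + 1) → Bool}
    (ha : f a = false) (hb : f b = true) : ∃ j, a j = false ∧ b j = true := by
  by_contra hcon
  push Not at hcon
  have : f a = true := hf b a (fun k hk => by
    by_contra h
    exact hcon k (by simpa using h) hk) hb
  rw [ha] at this
  exact absurd this (by simp)

theorem gen_mon {E : TFam} (hE : IsClone E) (h1 : Cl2 E (· && ·)) (h2 : Cl2 E (· || ·))
    (c0 : (fun _ => false : TF 0) ∈ E 0) (c1 : (fun _ => true : TF 0) ∈ E 0) {n : ℕ}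
    (f : TF n) (hf : Mono f) : f ∈ E n := by
  apply bp hE (maj_of h1 h2)
  intro a b
  cases ha : f a <;> cases hb : f b
  · exact ⟨_, const_mem hE false 0 n c0, rfl, rfl⟩
  · obtain ⟨j, hj1, hj2⟩ := hf.idx ha hb
    exact ⟨_, hE.proj n j, hj1, hj2⟩
  · obtain ⟨j, hj1, hj2⟩ := hf.idx hb ha
    exact ⟨_, hE.proj n j, hj2, hj1⟩
  · exact ⟨_, const_mem hE true 0 n c1, rfl, rfl⟩

/-- Zero preserving functions take the value true only at nonzero arguments. -/
theorem idx_of_zero {n : ℕ} {f : TF n} (h0 : f (fun _ => false) = false)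
    {a : Fin (n + 1) → Bool} (ha : f a = true) : ∃ j, a j = true := by
  by_contra hcon
  push Not at hcon
  have : a = fun _ => false := funext (fun k => by simpa using hcon k)
  rw [this, h0] at ha
  exact absurd ha (by simp)

theorem idx_of_one {n : ℕ} {f : TF n} (h0 : f (fun _ => true) = true)
    {a : Fin (n + 1) → Bool} (ha : f a = false) : ∃ j, a j = false := by
  by_contra hcon
  push Not at hcon
  have : a = fun _ => true := funext (fun k => by simpa using hcon k)
  rw [this, h0] at ha
  exact absurd ha (by simp)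

theorem gen_mon0 {E : TFam} (hE : IsClone E) (h1 : Cl2 E (· && ·)) (h2 : Cl2 E (· || ·))
    (c0 : (fun _ => false : TF 0) ∈ E 0) {n : ℕ}
    (f : TF n) (hf : Mono f) (h0 : f (fun _ => false) = false) : f ∈ E n := by
  apply bp hE (maj_of h1 h2)
  intro a b
  cases ha : f a <;> cases hb : f b
  · exact ⟨_, const_mem hE false 0 n c0, rfl, rfl⟩
  · obtain ⟨j, hj1, hj2⟩ := hf.idx ha hb
    exact ⟨_, hE.proj n j, hj1, hj2⟩
  · obtain ⟨j, hj1, hj2⟩ := hf.idx hb ha
    exact ⟨_, hE.proj n j, hj2, hj1⟩
  · obtain ⟨i, hi⟩ := idx_of_zero h0 ha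
    obtain ⟨j, hj⟩ := idx_of_zero h0 hb
    exact ⟨_, h2 n _ (hE.proj n i) _ (hE.proj n j), by simp [hi], by simp [hj]⟩

/-- The pairs with equal values, for idempotent functions. -/
theorem gen_eq {E : TFam} (hE : IsClone E) (h1 : Cl2 E (· && ·)) (h2 : Cl2 E (· || ·)) {n : ℕ}
    (f : TF n) (h0 : f (fun _ => false) = false) (h3 : f (fun _ => true) = true)
    (a b : Fin (n + 1) → Bool) (hab : f a = f b) : ∃ g ∈ E n, g a = f a ∧ g b = f b := by
  cases ha : f a
  · have hb : f b = false := by rw [← hab, ha]
    obtain ⟨i, hi⟩ := idx_of_one h3 ha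
    obtain ⟨j, hj⟩ := idx_of_one h3 hb
    exact ⟨_, h1 n _ (hE.proj n i) _ (hE.proj n j), by simp [hi], by simp [hj, hb]⟩
  · have hb : f b = true := by rw [← hab, ha]
    obtain ⟨i, hi⟩ := idx_of_zero h0 ha
    obtain ⟨j, hj⟩ := idx_of_zero h0 hb
    exact ⟨_, h2 n _ (hE.proj n i) _ (hE.proj n j), by simp [hi], by simp [hj, hb]⟩

theorem gen_K {E : TFam} (hE : IsClone E) (h1 : Cl2 E (· && ·)) (h2 : Cl2 E (· || ·)) {n : ℕ}
    (f : TF n) (hf : Mono f) (h0 : f (fun _ => false) = false) (h3 : f (fun _ => true) = true) :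
    f ∈ E n := by
  apply bp hE (maj_of h1 h2)
  intro a b
  by_cases hab : f a = f b
  · exact gen_eq hE h1 h2 f h0 h3 a b hab
  cases ha : f a <;> cases hb : f b
  · exact absurd (ha.trans hb.symm) hab
  · obtain ⟨j, hj1, hj2⟩ := hf.idx ha hb
    exact ⟨_, hE.proj n j, hj1, hj2⟩
  · obtain ⟨j, hj1, hj2⟩ := hf.idx hb ha
    exact ⟨_, hE.proj n j, hj2, hj1⟩
  · exact absurd (ha.trans hb.symm) hab

theorem gen_T0 {E : TFam} (hE : IsClone E) (h1 : Cl2 E (· && ·)) (h2 : Cl2 E (· ^^ ·)) {n : ℕ}
    (f : TF n) (h0 : f (fun _ => false) = false) : f ∈ E n := by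
  have hor : Cl2 E (· || ·) := by
    intro n f hf g hg
    have := h2 n _ (h1 n _ hf _ hg) _ (h2 n f hf g hg)
    have e : (fun x => ((f x && g x) ^^ (f x ^^ g x))) = fun x => (f x || g x) := by
      funext x
      cases f x <;> cases g x <;> rfl
    rwa [e] at this
  have hf0 : (fun _ => false : TF n) ∈ E n := by
    have := h2 n _ (hE.proj n 0) _ (hE.proj n 0)
    simpa using this
  apply bp hE (maj_of h1 hor)
  have main : ∀ a b : Fin (n + 1) → Bool, f a = true → f b = false →
      ∃ g ∈ E n, g a = true ∧ g b = false := by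
    intro a b ha hb
    obtain ⟨i, hi⟩ := idx_of_zero h0 ha
    cases hbi : b i
    · exact ⟨_, hE.proj n i, hi, hbi⟩
    · obtain ⟨j, hj⟩ : ∃ j, a j ≠ b j := by
        by_contra hcon
        push Not at hcon
        rw [funext hcon, hb] at ha
        exact absurd ha (by simp)
      cases haj : a j
      · have hbj : b j = true := by
          rw [haj] at hj
          revert hj
          cases b j <;> simp
        exact ⟨_, h2 n _ (hE.proj n i) _ (hE.proj n j), by simp [hi, haj], by simp [hbi, hbj]⟩
      · have hbj : b j = false := by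
          rw [haj] at hj
          revert hj
          cases b j <;> simp
        exact ⟨_, hE.proj n j, haj, hbj⟩
  intro a b
  cases ha : f a <;> cases hb : f b
  · exact ⟨_, hf0, rfl, rfl⟩
  · obtain ⟨g, hg, e1, e2⟩ := main b a hb ha
    exact ⟨g, hg, e2, e1⟩
  · exact main a b ha hb
  · obtain ⟨i, hi⟩ := idx_of_zero h0 ha
    obtain ⟨j, hj⟩ := idx_of_zero h0 hb
    exact ⟨_, hor n _ (hE.proj n i) _ (hE.proj n j), by simp [hi], by simp [hj]⟩

theorem gen_T01 {E : TFam} (hE : IsClone E) (h1 : Cl2 E (· && ·)) (h2 : Cl2 E (· || ·))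
    (hk : Cl3 E (fun x y z => z && (!y || x))) {n : ℕ}
    (f : TF n) (h0 : f (fun _ => false) = false) (h3 : f (fun _ => true) = true) : f ∈ E n := by
  apply bp hE (maj_of h1 h2)
  have main : ∀ a b : Fin (n + 1) → Bool, f a = true → f b = false →
      ∃ g ∈ E n, g a = true ∧ g b = false := by
    intro a b ha hb
    by_cases hj : ∃ j, a j = true ∧ b j = false
    · obtain ⟨j, hj1, hj2⟩ := hj
      exact ⟨_, hE.proj n j, hj1, hj2⟩
    push Not at hj
    obtain ⟨i, hi⟩ := idx_of_zero h0 ha
    obtain ⟨l, hl⟩ := idx_of_one h3 hb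
    obtain ⟨j, hj'⟩ : ∃ j, a j ≠ b j := by
      by_contra hcon
      push Not at hcon
      rw [funext hcon, hb] at ha
      exact absurd ha (by simp)
    have haj : a j = false := by
      by_contra h
      have h' : a j = true := by simpa using h
      have := hj j h'
      rw [h'] at hj'
      revert this hj'
      cases b j <;> simp
    have hbj : b j = true := by
      rw [haj] at hj'
      revert hj'
      cases b j <;> simp
    have hbi : b i = true := by simpa using hj i hi
    have hal : a l = false := by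
      by_contra h
      exact hj l (by simpa using h) hl
    refine ⟨_, hk n _ (hE.proj n l) _ (hE.proj n j) _ (hE.proj n i), ?_, ?_⟩
    · simp [hi, haj]
    · simp [hbi, hbj, hl]
  intro a b
  by_cases hab : f a = f b
  · exact gen_eq hE h1 h2 f h0 h3 a b hab
  cases ha : f a <;> cases hb : f b
  · exact absurd (ha.trans hb.symm) hab
  · obtain ⟨g, hg, e1, e2⟩ := main b a hb ha
    exact ⟨g, hg, e2, e1⟩
  · exact main a b ha hb
  · exact absurd (ha.trans hb.symm) hab

/-- Self-dual functions. -/
def SDual {n : ℕ} (f : TF n) : Prop := ∀ a : Fin (n + 1) → Bool, f (fun k => !(a k)) = !(f a)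

theorem gen_S {E : TFam} (hE : IsClone E) (h1 : Cl3 E maj) (h2 : Cl1 E (! ·)) {n : ℕ}
    (f : TF n) (hf : SDual f) : f ∈ E n := by
  apply bp hE h1
  intro a b
  -- a coordinate `i` such that `x i` or its negation interpolates
  obtain ⟨i, hi⟩ : ∃ i, (a i = b i ↔ f a = f b) := by
    by_cases hab : f a = f b
    · by_contra hcon
      push Not at hcon
      have : b = fun k => !(a k) := by
        funext k
        have := hcon k
        revert this
        cases a k <;> cases b k <;> simp [hab]
      rw [this, hf] at hab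
      revert hab
      cases f a <;> simp
    · by_contra hcon
      push Not at hcon
      have : a = b := by
        funext k
        have := hcon k
        revert this
        cases a k <;> cases b k <;> simp [hab]
      exact hab (by rw [this])
  by_cases h3 : a i = f a
  · refine ⟨_, hE.proj n i, h3, ?_⟩
    show b i = f b
    revert hi h3
    cases a i <;> cases b i <;> cases f a <;> cases f b <;> simp
  · refine ⟨_, h2 n _ (hE.proj n i), ?_, ?_⟩
    · show (!(a i)) = f a
      revert h3
      cases a i <;> cases f a <;> simp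
    · show (!(b i)) = f b
      revert hi h3
      cases a i <;> cases b i <;> cases f a <;> cases f b <;> simp

theorem idem_idx {n : ℕ} {f : TF n} (h0 : f (fun _ => false) = false)
    (h3 : f (fun _ => true) = true) (a : Fin (n + 1) → Bool) : ∃ i, a i = f a := by
  cases ha : f a
  · exact idx_of_one h3 ha
  · exact idx_of_zero h0 ha

theorem gen_D1 {E : TFam} (hE : IsClone E) (h1 : Cl3 E maj) (h2 : Cl3 E mnr) {n : ℕ}
    (f : TF n) (hf : SDual f) (h0 : f (fun _ => false) = false) (h3 : f (fun _ => true) = true) :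
    f ∈ E n := by
  apply bp hE h1
  intro a b
  by_cases hex : ∃ i, a i = f a ∧ b i = f b
  · obtain ⟨i, hi1, hi2⟩ := hex
    exact ⟨_, hE.proj n i, hi1, hi2⟩
  push Not at hex
  obtain ⟨i, hi⟩ := idem_idx h0 h3 a
  obtain ⟨j, hj⟩ := idem_idx h0 h3 b
  have hbi := hex i hi
  have haj : a j ≠ f a := fun h => hex j h hj
  -- a coordinate different from both
  obtain ⟨l, hl1, hl2⟩ : ∃ l, a l ≠ f a ∧ b l ≠ f b := by
    by_contra hcon
    push Not at hcon
    by_cases hab : f a = f b
    · -- then `b` is the complement of `a`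
      have : b = fun k => !(a k) := by
        funext k
        have e1 := hex k
        have e2 := hcon k
        revert e1 e2
        rw [← hab]
        cases a k <;> cases b k <;> cases f a <;> simp
      rw [this, hf] at hab
      revert hab
      cases f a <;> simp
    · have : a = b := by
        funext k
        have e1 := hex k
        have e2 := hcon k
        revert e1 e2 hab
        cases a k <;> cases b k <;> cases f a <;> cases f b <;> simp
      exact hab (by rw [this])
  refine ⟨_, h2 n _ (hE.proj n i) _ (hE.proj n j) _ (hE.proj n l), ?_, ?_⟩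
  · show mnr (a i) (a j) (a l) = f a
    revert hi haj hl1
    cases a i <;> cases a j <;> cases a l <;> cases f a <;> simp [mnr]
  · show mnr (b i) (b j) (b l) = f b
    revert hbi hj hl2
    cases b i <;> cases b j <;> cases b l <;> cases f b <;> simp [mnr]

end Pool.Agent.Q266.SPC
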