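import Pool.Agent.Q266.SPC.Pow

/-!
# Lollipop graphs and an independent family of partial functions
-/

set_option autoImplicit false

namespace Pool.Agent.Q266.SPC

/-- Adjacency in the lollipop graph: a clique on `0, ..., i + 3` with the path
`i + 3, ..., 2 i + 4` attached. -/
def adj (i : ℕ) (a b : Fin (2 * i + 5)) : Prop :=
  a.1 ≠ b.1 ∧ ((a.1 ≤ i + 3 ∧ b.1 ≤ i + 3) ∨ a.1 + 1 = b.1 ∨ b.1 + 1 = a.1)

instance (i : ℕ) (a b : Fin (2 * i + 5)) : Decidable (adj i a b) := by
  unfold adj; infer_instance

theorem adj_tri {i : ℕ} {a b c : Fin (2 * i + 5)} (h1 : adj i a b) (h2 : adj i b c)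
    (h3 : adj i a c) : a.1 ≤ i + 3 := by
  unfold adj at h1 h2 h3
  omega

/-- No homomorphism between different lollipop graphs hits the last vertex. -/
theorem hom_miss {i j : ℕ} (hij : i ≠ j) (φ : Fin (2 * j + 5) → Fin (2 * i + 5))
    (hφ : ∀ a b, adj j a b → adj i (φ a) (φ b)) (a : Fin (2 * j + 5)) : (φ a).1 < 2 * i + 4 := by
  -- the clique goes to the clique
  have h1 : ∀ a : Fin (2 * j + 5), a.1 ≤ j + 3 → (φ a).1 ≤ i + 3 := by
    intro a ha
    -- two other vertices of the clique
    obtain ⟨b, c, hb, hc, hab, hac, hbc⟩ : ∃ b c : ℕ, b ≤ 2 ∧ c ≤ 2 ∧ a.1 ≠ b ∧ a.1 ≠ c ∧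
        b ≠ c := by
      rcases Nat.lt_or_ge a.1 1 with h | h
      · exact ⟨1, 2, by omega, by omega, by omega, by omega, by omega⟩
      · rcases Nat.lt_or_ge a.1 2 with h' | h'
        · exact ⟨0, 2, by omega, by omega, by omega, by omega, by omega⟩
        · exact ⟨0, 1, by omega, by omega, by omega, by omega, by omega⟩
    have e1 := hφ a ⟨b, by omega⟩ ⟨hab, Or.inl ⟨ha, (by omega : b ≤ j + 3)⟩⟩
    have e2 := hφ ⟨b, by omega⟩ ⟨c, by omega⟩
      ⟨hbc, Or.inl ⟨(by omega : b ≤ j + 3), (by omega : c ≤ j + 3)⟩⟩
    have e3 := hφ a ⟨c, by omega⟩ ⟨hac, Or.inl ⟨ha, (by omega : c ≤ j + 3)⟩⟩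
    exact adj_tri e1 e2 e3
  rcases lt_or_gt_of_ne hij with hlt | hgt
  · -- `i < j`: the clique does not fit
    exfalso
    let ψ : Fin (j + 4) → Fin (i + 4) := fun x =>
      ⟨(φ ⟨x.1, by omega⟩).1, by
        have := h1 ⟨x.1, by omega⟩ (by first | (simp; done) | (simp; omega))
        omega⟩
    have hψ : Function.Injective ψ := by
      intro x y hxy
      by_contra hne
      have hne' : x.1 ≠ y.1 := fun h => hne (Fin.ext h)
      have h2 := hφ ⟨x.1, by omega⟩ ⟨y.1, by omega⟩
        ⟨by simpa using hne', Or.inl ⟨by first | (simp; done) | (simp; omega), by first | (simp; done) | (simp; omega)⟩⟩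
      apply h2.1
      have := congrArg Fin.val hxy
      simpa [ψ] using this
    have := Fintype.card_le_of_injective ψ hψ
    simp at this
    omega
  · -- `j < i`: the path is too short
    have h2 : ∀ d : ℕ, ∀ a : Fin (2 * j + 5), a.1 ≤ j + 3 + d → (φ a).1 ≤ i + 3 + d := by
      intro d
      induction d with
      | zero => intro a ha; exact h1 a ha
      | succ d ih =>
        intro a ha
        by_cases hd : a.1 ≤ j + 3 + d
        · have := ih a hd
          omega
        · have hb := ih ⟨a.1 - 1, by omega⟩ (by first | (simp; done) | (simp; omega))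
          have hab := hφ ⟨a.1 - 1, by omega⟩ a ⟨by first | (simp; done) | (simp; omega), Or.inr (Or.inl (by first | (simp; done) | (simp; omega)))⟩
          unfold adj at hab
          omega
    have := h2 (j + 1) a (by omega)
    omega

/-- The columns: the sets `{u, v}` for non-adjacent `u, v`, and `{u}` otherwise. -/
def col (i : ℕ) (k : Fin (2 * i + 5) × Fin (2 * i + 5)) (w : Fin (2 * i + 5)) : Bool :=
  decide (w = k.1 ∨ (w = k.2 ∧ ¬ adj i k.1 k.2))

/-- The arity (minus one). -/
def ar (i : ℕ) : ℕ := (2 * i + 5) * (2 * i + 5) - 1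

theorem ar_succ (i : ℕ) : ar i + 1 = (2 * i + 5) * (2 * i + 5) := by
  unfold ar
  have : 0 < (2 * i + 5) * (2 * i + 5) := by positivity
  omega

/-- The indexing of the columns. -/
def eqv (i : ℕ) : Fin (ar i + 1) ≃ Fin (2 * i + 5) × Fin (2 * i + 5) :=
  (finCongr (ar_succ i)).trans finProdFinEquiv.symm

/-- The rows. -/
def row (i : ℕ) (w : Fin (2 * i + 5)) : Fin (ar i + 1) → Bool := fun k => col i (eqv i k) w

theorem row_symm (i : ℕ) (w u v : Fin (2 * i + 5)) :
    row i w ((eqv i).symm (u, v)) = decide (w = u ∨ (w = v ∧ ¬ adj i u v)) := by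
  simp [row, col]

theorem adj_irrefl (i : ℕ) (u : Fin (2 * i + 5)) : ¬ adj i u u := fun h => h.1 rfl

theorem adj_symm {i : ℕ} {u v : Fin (2 * i + 5)} (h : adj i u v) : adj i v u := by
  unfold adj at *
  omega

theorem row_self (i : ℕ) (w u : Fin (2 * i + 5)) :
    row i w ((eqv i).symm (u, u)) = decide (w = u) := by
  rw [row_symm]
  simp [adj_irrefl]

theorem row_inj (i : ℕ) : Function.Injective (row i) := by
  intro u v h
  have := congrFun h ((eqv i).symm (u, u))
  rw [row_self, row_self] at this
  simp at this
  exact this.symm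

/-- The indicator function of the last edge. -/
def tt (i : ℕ) (w : Fin (2 * i + 5)) : Bool := decide (2 * i + 3 ≤ w.1)

open Classical in
/-- The partial function attached to a lollipop graph. -/
noncomputable def ff (i : ℕ) : PF (ar i) := fun x =>
  if h : ∃ w, row i w = x then some (tt i (Classical.choose h)) else none

theorem ff_row (i : ℕ) (w : Fin (2 * i + 5)) : ff i (row i w) = some (tt i w) := by
  have h : ∃ w', row i w' = row i w := ⟨w, rfl⟩
  unfold ff
  rw [dif_pos h]
  congr 2
  exact row_inj i (Classical.choose_spec h)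

theorem ff_some {i : ℕ} {x : Fin (ar i + 1) → Bool} {b : Bool} (h : ff i x = some b) :
    ∃ w, x = row i w ∧ b = tt i w := by
  unfold ff at h
  split_ifs at h with h1
  obtain ⟨w, rfl⟩ := h1
  refine ⟨w, rfl, ?_⟩
  have h2 := ff_row i w
  unfold ff at h2
  rw [dif_pos ⟨w, rfl⟩] at h2
  rw [h] at h2
  exact Option.some.inj h2

/-- Independent sets. -/
def Ind (j : ℕ) (s : Fin (2 * j + 5) → Bool) : Prop :=
  ∀ a b, adj j a b → s a = true → s b = true → False

theorem ind_col (i : ℕ) (k : Fin (2 * i + 5) × Fin (2 * i + 5)) : Ind i (col i k) := by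
  intro a b hab ha hb
  unfold col at ha hb
  simp only [decide_eq_true_eq] at ha hb
  rcases ha with ha | ⟨ha, h1⟩ <;> rcases hb with hb | ⟨hb, h2⟩
  · rw [ha, hb] at hab; exact adj_irrefl i _ hab
  · rw [ha, hb] at hab; exact h2 hab
  · rw [ha, hb] at hab; exact h1 (adj_symm hab)
  · rw [ha, hb] at hab; exact adj_irrefl i _ hab

theorem not_ind_tt (i : ℕ) : ¬ Ind i (tt i) := by
  intro h
  refine h ⟨2 * i + 3, by omega⟩ ⟨2 * i + 4, by omega⟩ ⟨by simp, Or.inr (Or.inl (by simp))⟩ ?_ ?_
  · simp [tt]
  · simp [tt]

theorem not_ind_tt' (i : ℕ) : ¬ Ind i (fun w => !(tt i w)) := by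
  intro h
  refine h ⟨0, by omega⟩ ⟨1, by omega⟩ ⟨by simp, Or.inl ⟨by simp, by first | (simp; done) | (simp; omega)⟩⟩ ?_ ?_
  · simp [tt]
  · simp [tt]

theorem tt_zero (i : ℕ) : tt i ⟨0, by omega⟩ = false := by
  simp [tt]

/-- A homomorphism pulls the last edge back to an independent set. -/
theorem ind_of_hom {i j : ℕ} (hij : i ≠ j) (φ : Fin (2 * j + 5) → Fin (2 * i + 5))
    (hφ : ∀ a b, adj j a b → adj i (φ a) (φ b)) : Ind j (fun h => tt i (φ h)) := by
  intro a b hab ha hb
  have h1 := hom_miss hij φ hφ a
  have h2 := hom_miss hij φ hφ b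
  have h3 := (hφ a b hab).1
  simp only [tt, decide_eq_true_eq] at ha hb
  omega

/-- The first type of relation: independent sets. -/
def R1 (i : ℕ) : Set (Fin (2 * i + 5) → Bool) := {s | Ind i s}

/-- The second type of relation: independent sets and the full set. -/
def R2 (i : ℕ) : Set (Fin (2 * i + 5) → Bool) := {s | Ind i s ∨ ∀ a, s a = true}

/-- The third type of relation: independent sets and their complements. -/
def R3 (i : ℕ) : Set (Fin (2 * i + 5) → Bool) := {s | Ind i s ∨ Ind i (fun a => !(s a))}

theorem ff_R1_ne (i : ℕ) : ff i ∉ pPol (R1 i) (ar i) := by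
  intro h
  exact not_ind_tt i (h (fun k => col i (eqv i k)) (tt i) (fun k => ind_col i _)
    (fun v => ff_row i v))

theorem ff_R2_ne (i : ℕ) : ff i ∉ pPol (R2 i) (ar i) := by
  intro h
  rcases h (fun k => col i (eqv i k)) (tt i) (fun k => Or.inl (ind_col i _))
    (fun v => ff_row i v) with h1 | h1
  · exact not_ind_tt i h1
  · have := h1 ⟨0, by omega⟩
    rw [tt_zero] at this
    exact absurd this (by simp)

theorem ff_R3_ne (i : ℕ) : ff i ∉ pPol (R3 i) (ar i) := by
  intro h
  rcases h (fun k => col i (eqv i k)) (tt i) (fun k => Or.inl (ind_col i _))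
    (fun v => ff_row i v) with h1 | h1
  · exact not_ind_tt i h1
  · exact not_ind_tt' i h1

/-- Rows of a matrix with all rows in the domain of `ff i`. -/
theorem rows {i j : ℕ} {M : Fin (ar i + 1) → Fin (2 * j + 5) → Bool} {r : Fin (2 * j + 5) → Bool}
    (h : ∀ v, ff i (fun k => M k v) = some (r v)) :
    ∃ φ : Fin (2 * j + 5) → Fin (2 * i + 5), (∀ v k, M k v = row i (φ v) k) ∧
      r = fun v => tt i (φ v) := by
  have h1 : ∀ v, ∃ w, (fun k => M k v) = row i w ∧ r v = tt i w := fun v => ff_some (h v)
  choose φ hφ hr using h1
  exact ⟨φ, fun v k => congrFun (hφ v) k, funext hr⟩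

theorem ff_R1 {i j : ℕ} (hij : i ≠ j) : ff i ∈ pPol (R1 j) (ar i) := by
  intro M r hM hr
  obtain ⟨φ, hφ, rfl⟩ := rows hr
  apply ind_of_hom hij φ
  intro a b hab
  by_contra hn
  refine hM ((eqv i).symm (φ a, φ b)) a b hab ?_ ?_
  · rw [hφ, row_symm]; simp
  · rw [hφ, row_symm]; simp [hn]

theorem pigeon3 {i j : ℕ} (φ : Fin (2 * j + 5) → Fin (2 * i + 5)) (u v : Fin (2 * i + 5))
    (h : ∀ w, φ w = u ∨ φ w = v) : ∃ a b, adj j a b ∧ φ a = φ b := by
  have a01 : adj j ⟨0, by omega⟩ ⟨1, by omega⟩ := ⟨by simp, Or.inl ⟨by simp, by first | (simp; done) | (simp; omega)⟩⟩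
  have a02 : adj j ⟨0, by omega⟩ ⟨2, by omega⟩ := ⟨by simp, Or.inl ⟨by simp, by first | (simp; done) | (simp; omega)⟩⟩
  have a12 : adj j ⟨1, by omega⟩ ⟨2, by omega⟩ := ⟨by simp, Or.inl ⟨by first | (simp; done) | (simp; omega), by first | (simp; done) | (simp; omega)⟩⟩
  rcases h ⟨0, by omega⟩ with h0 | h0 <;> rcases h ⟨1, by omega⟩ with h1 | h1 <;>
    rcases h ⟨2, by omega⟩ with h2 | h2
  · exact ⟨_, _, a01, h0.trans h1.symm⟩
  · exact ⟨_, _, a01, h0.trans h1.symm⟩
  · exact ⟨_, _, a02, h0.trans h2.symm⟩
  · exact ⟨_, _, a12, h1.trans h2.symm⟩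
  · exact ⟨_, _, a12, h1.trans h2.symm⟩
  · exact ⟨_, _, a02, h0.trans h2.symm⟩
  · exact ⟨_, _, a01, h0.trans h1.symm⟩
  · exact ⟨_, _, a01, h0.trans h1.symm⟩

theorem ff_R2 {i j : ℕ} (hij : i ≠ j) : ff i ∈ pPol (R2 j) (ar i) := by
  intro M r hM hr
  obtain ⟨φ, hφ, rfl⟩ := rows hr
  by_cases hh : ∀ a b, adj j a b → adj i (φ a) (φ b)
  · exact Or.inl (ind_of_hom hij φ hh)
  push Not at hh
  obtain ⟨a, b, hab, hn⟩ := hh
  have hfull : ∀ w, φ w = φ a ∨ φ w = φ b := by
    rcases hM ((eqv i).symm (φ a, φ b)) with h1 | h1
    · exfalso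
      refine h1 a b hab ?_ ?_
      · rw [hφ, row_symm]; simp
      · rw [hφ, row_symm]; simp [hn]
    · intro w
      have := h1 w
      rw [hφ, row_symm] at this
      simp [hn] at this
      exact this
  by_cases he : φ a = φ b
  · -- the map is constant
    have hc : ∀ w, φ w = φ a := fun w => (hfull w).elim id (fun h => h.trans he.symm)
    cases htt : tt i (φ a)
    · left
      intro x y _ hx _
      simp only [hc x, htt] at hx
      exact absurd hx (by simp)
    · right
      intro x
      simp only [hc x, htt]
  · -- two values: impossible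
    exfalso
    obtain ⟨x, y, hxy, he'⟩ := pigeon3 φ (φ a) (φ b) hfull
    have key : ∀ u, (∃ w, φ w ≠ u) → φ x = u → False := by
      rintro u ⟨w, hw⟩ hu
      rcases hM ((eqv i).symm (u, u)) with h1 | h1
      · refine h1 x y hxy ?_ ?_
        · rw [hφ, row_self]; simp [hu]
        · rw [hφ, row_self]; simp [← he', hu]
      · have := h1 w
        rw [hφ, row_self] at this
        simp at this
        exact hw this
    rcases hfull x with h | h
    · exact key _ ⟨b, fun h' => he h'.symm⟩ h
    · exact key _ ⟨a, he⟩ h

theorem ff_R3 {i j : ℕ} (hij : i ≠ j) : ff i ∈ pPol (R3 j) (ar i) := by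
  intro M r hM hr
  obtain ⟨φ, hφ, rfl⟩ := rows hr
  by_cases hA : ∃ x y, adj j x y ∧ φ x = φ y
  · -- some fibre is not independent, so its complement is
    obtain ⟨x, y, hxy, he⟩ := hA
    have hW : ∀ a b, adj j a b → φ a ≠ φ x → φ b ≠ φ x → False := by
      rcases hM ((eqv i).symm (φ x, φ x)) with h1 | h1
      · exfalso
        refine h1 x y hxy ?_ ?_
        · rw [hφ, row_self]; simp
        · rw [hφ, row_self]; simp [he]
      · intro a b hab ha hb
        refine h1 a b hab ?_ ?_
        · show (!(M _ a)) = true
          rw [hφ, row_self]; simp [ha]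
        · show (!(M _ b)) = true
          rw [hφ, row_self]; simp [hb]
    cases htt : tt i (φ x)
    · left
      intro a b hab ha hb
      refine hW a b hab ?_ ?_
      · intro h
        simp only [h, htt] at ha
        exact absurd ha (by simp)
      · intro h
        simp only [h, htt] at hb
        exact absurd hb (by simp)
    · right
      intro a b hab ha hb
      refine hW a b hab ?_ ?_
      · intro h
        simp [h, htt] at ha
      · intro h
        simp [h, htt] at hb
  push Not at hA
  by_cases hh : ∀ a b, adj j a b → adj i (φ a) (φ b)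
  · exact Or.inl (ind_of_hom hij φ hh)
  exfalso
  push Not at hh
  obtain ⟨a, b, hab, hn⟩ := hh
  -- complement of two fibres is independent
  have hW : ∀ x y, adj j x y → φ x ≠ φ a → φ x ≠ φ b → φ y ≠ φ a → φ y ≠ φ b → False := by
    rcases hM ((eqv i).symm (φ a, φ b)) with h1 | h1
    · exfalso
      refine h1 a b hab ?_ ?_
      · rw [hφ, row_symm]; simp
      · rw [hφ, row_symm]; simp [hn]
    · intro x y hxy h2 h3 h4 h5
      refine h1 x y hxy ?_ ?_
      · show (!(M _ x)) = true
        rw [hφ, row_symm]; simp [h2, h3]
      · show (!(M _ y)) = true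
        rw [hφ, row_symm]; simp [h4, h5]
  -- four pairwise adjacent vertices in three independent classes
  let c : Fin (2 * j + 5) → Fin 3 := fun w => if φ w = φ a then 0 else if φ w = φ b then 1 else 2
  have hc : ∀ x y, adj j x y → c x ≠ c y := by
    intro x y hxy h
    by_cases h1 : φ x = φ a
    · by_cases h2 : φ y = φ a
      · exact hA x y hxy (h1.trans h2.symm)
      · by_cases h3 : φ y = φ b
        · simp [c, h1, h2, h3] at h
          simp_all
        · simp [c, h1, h2, h3] at h
    · by_cases h1' : φ x = φ b
      · by_cases h2 : φ y = φ a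
        · simp [c, h1, h1', h2] at h
          simp_all
        · by_cases h3 : φ y = φ b
          · exact hA x y hxy (h1'.trans h3.symm)
          · simp [c, h1, h1', h2, h3] at h
            simp_all
      · by_cases h2 : φ y = φ a
        · simp [c, h1, h1', h2] at h
        · by_cases h3 : φ y = φ b
          · simp [c, h1, h1', h2, h3] at h
            simp_all
          · exact hW x y hxy h1 h1' h2 h3
  have q : ∀ x y : ℕ, x < 4 → y < 4 → x ≠ y →
      ∀ (hx : x < 2 * j + 5) (hy : y < 2 * j + 5), c ⟨x, hx⟩ ≠ c ⟨y, hy⟩ := by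
    intro x y h1 h2 h3 hx hy
    exact hc _ _ ⟨by simpa using h3, Or.inl ⟨by first | (simp; done) | (simp; omega), by first | (simp; done) | (simp; omega)⟩⟩
  have hcard : Function.Injective (fun x : Fin 4 => c ⟨x.1, by omega⟩) := by
    intro x y hxy
    by_contra hne
    exact q x.1 y.1 x.2 y.2 (fun h => hne (Fin.ext h)) _ _ hxy
  have := Fintype.card_le_of_injective _ hcard
  simp at this

/-! ### The three classes of clones -/

/-- If any two points with value true share a one, the intervals embed in that of `D`. -/
theorem emb_T02 {D : TFam} (hD : IsClone D)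
    (h : ∀ n, ∀ t ∈ D n, ∀ x y, t x = true → t y = true → ∃ k, x k = true ∧ y k = true)
    (C : TFam) : Emb C D := by
  refine emb_of_family hD R1 ar ff ?_ ?_ ff_R1_ne (fun i j hij => ff_R1 hij) C
  · intro i n t ht M r hM hr a b hab ha hb
    have h1 : ∀ v, t (fun k => M k v) = r v := fun v => Option.some.inj (hr v)
    obtain ⟨k, hk1, hk2⟩ := h n t ht _ _ ((h1 a).trans ha) ((h1 b).trans hb)
    exact hM k a b hab hk1 hk2
  · intro i m g t hg ht
    exfalso
    obtain ⟨w, hw, -⟩ := ff_some (ht (fun _ => false))
    have h1 := congrFun hw ((eqv i).symm (w, w))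
    rw [row_self] at h1
    simp only [decide_true] at h1
    obtain ⟨k, hk, -⟩ := h m _ (hg _) _ _ h1 h1
    exact absurd hk (by simp)

/-- If all members of `D` preserve meets, the intervals embed in that of `D`. -/
theorem emb_Lam {D : TFam} (hD : IsClone D)
    (h : ∀ n, ∀ t ∈ D n, ∀ x y, t (fun k => x k && y k) = (t x && t y)) (C : TFam) : Emb C D := by
  refine emb_of_family hD R2 ar ff ?_ ?_ ff_R2_ne (fun i j hij => ff_R2 hij) C
  · intro i n t ht M r hM hr
    have h1 : ∀ v, t (fun k => M k v) = r v := fun v => Option.some.inj (hr v)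
    by_cases hfull : ∀ a, r a = true
    · exact Or.inr hfull
    left
    push Not at hfull
    obtain ⟨w, hw⟩ := hfull
    intro a b hab ha hb
    apply hw
    -- monotonicity
    have hmon : ∀ x y : Fin (n + 1) → Bool, (∀ k, x k = true → y k = true) → t x = true →
        t y = true := by
      intro x y hxy hx
      have e : (fun k => x k && y k) = x := by
        funext k
        cases hk : x k
        · simp
        · simp [hxy k hk]
      have := h n t ht x y
      rw [e, hx] at this
      simpa using this.symm
    have h2 := h n t ht (fun k => M k a) (fun k => M k b)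
    rw [h1 a, h1 b, ha, hb] at h2
    rw [← h1 w]
    refine hmon _ _ ?_ h2
    intro k hk
    simp only [Bool.and_eq_true] at hk
    rcases hM k with h3 | h3
    · exact absurd (h3 a b hab hk.1 hk.2) id
    · exact h3 w
  · intro i m g t hg ht
    -- the map is constant
    have h1 : ∀ x, ∃ w, (fun k => g k x) = row i w ∧ t x = tt i w := fun x => ff_some (ht x)
    choose φ hφ hr using h1
    have hconst : ∀ x y, φ x = φ y := by
      intro x y
      have e : (fun k => g k (fun l => x l && y l)) =
          fun k => (row i (φ x) k && row i (φ y) k) := by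
        funext k
        rw [h m _ (hg k), ← hφ x, ← hφ y]
      rw [hφ] at e
      have e1 := congrFun e ((eqv i).symm (φ (fun l => x l && y l), φ (fun l => x l && y l)))
      rw [row_self, row_self, row_self] at e1
      simp only [decide_true] at e1
      have e2 := e1.symm
      rw [Bool.and_eq_true, decide_eq_true_eq, decide_eq_true_eq] at e2
      exact e2.1.trans e2.2.symm
    -- both constants occur
    let w := φ (fun _ => false)
    have hg' : ∀ k, g k = fun _ => row i w k := by
      intro k
      funext x
      have := congrFun (hφ x) k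
      rw [this, hconst x (fun _ => false)]
    have ht' : t = fun _ => tt i w := by
      funext x
      rw [hr x, hconst x (fun _ => false)]
    obtain ⟨u, hu⟩ : ∃ u : Fin (2 * i + 5), u ≠ w := by
      by_cases h0 : w = ⟨0, by omega⟩
      · exact ⟨⟨1, by omega⟩, by rw [h0]; simp⟩
      · exact ⟨⟨0, by omega⟩, fun h' => h0 h'.symm⟩
    have c1 : (fun _ => true : TF m) ∈ D m := by
      have h2 := hg ((eqv i).symm (w, w))
      rw [hg', row_self] at h2
      simpa using h2
    have c0 : (fun _ => false : TF m) ∈ D m := by
      have h2 := hg ((eqv i).symm (u, u))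
      rw [hg', row_self] at h2
      simpa [Ne.symm hu] using h2
    rw [ht']
    cases tt i w
    · exact c0
    · exact c1

/-- If all members of `D` are essentially unary, the intervals embed in that of `D`. -/
theorem emb_unary {D : TFam} (hD : IsClone D)
    (h : ∀ n, ∀ t ∈ D n, (∃ b, ∀ x, t x = b) ∨ (∃ k, ∀ x, t x = x k) ∨ ∃ k, ∀ x, t x = !(x k))
    (C : TFam) : Emb C D := by
  refine emb_of_family hD R3 ar ff ?_ ?_ ff_R3_ne (fun i j hij => ff_R3 hij) C
  · intro i n t ht M r hM hr
    have h1 : ∀ v, t (fun k => M k v) = r v := fun v => Option.some.inj (hr v)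
    rcases h n t ht with ⟨b, hb⟩ | ⟨k, hk⟩ | ⟨k, hk⟩
    · cases b
      · left
        intro x y _ hx _
        rw [← h1, hb] at hx
        exact absurd hx (by simp)
      · right
        intro x y _ hx _
        simp only [← h1, hb] at hx
        exact absurd hx (by simp)
    · have e : r = M k := by
        funext v
        rw [← h1, hk]
      rw [e]
      exact hM k
    · have e : r = fun v => !(M k v) := by
        funext v
        rw [← h1, hk]
      rw [e]
      rcases hM k with h2 | h2
      · right
        simpa using h2
      · left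
        exact h2
  · intro i m g t hg ht
    have h1 : ∀ x, ∃ w, (fun k => g k x) = row i w ∧ t x = tt i w := fun x => ff_some (ht x)
    choose φ hφ hr using h1
    -- the indicator of a fibre is essentially unary
    have hfib : ∀ u : Fin (2 * i + 5), (fun x => decide (φ x = u) : TF m) ∈ D m := by
      intro u
      have h2 := hg ((eqv i).symm (u, u))
      have e : g ((eqv i).symm (u, u)) = fun x => decide (φ x = u) := by
        funext x
        have := congrFun (hφ x) ((eqv i).symm (u, u))
        rw [this, row_self]
      rwa [e] at h2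
    by_cases hc : ∀ x y, φ x = φ y
    · let w := φ (fun _ => false)
      have ht' : t = fun _ => tt i w := by
        funext x
        rw [hr x, hc x (fun _ => false)]
      obtain ⟨u, hu⟩ : ∃ u : Fin (2 * i + 5), u ≠ w := by
        by_cases h0 : w = ⟨0, by omega⟩
        · exact ⟨⟨1, by omega⟩, by rw [h0]; simp⟩
        · exact ⟨⟨0, by omega⟩, fun h' => h0 h'.symm⟩
      have c1 : (fun _ => true : TF m) ∈ D m := by
        have h2 := hfib w
        have e : (fun x => decide (φ x = w) : TF m) = fun _ => true := by
          funext x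
          simp [hc x (fun _ => false), w]
        rwa [e] at h2
      have c0 : (fun _ => false : TF m) ∈ D m := by
        have h2 := hfib u
        have e : (fun x => decide (φ x = u) : TF m) = fun _ => false := by
          funext x
          rw [hc x (fun _ => false)]
          simpa using Ne.symm hu
        rwa [e] at h2
      rw [ht']
      cases tt i w
      · exact c0
      · exact c1
    · push Not at hc
      obtain ⟨x0, y0, hxy⟩ := hc
      -- the fibre of `φ x0`
      have hx0 := h m _ (hfib (φ x0))
      -- it is neither constant, so it is `x k` or its negation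
      have hlit : ∃ k, ∃ s : Bool, ∀ x, decide (φ x = φ x0) = (s ^^ x k) := by
        rcases hx0 with ⟨b, hb⟩ | ⟨k, hk⟩ | ⟨k, hk⟩
        · exfalso
          have e1 := hb x0
          have e2 := hb y0
          rw [← e1] at e2
          simp at e2
          exact hxy e2.symm
        · exact ⟨k, false, fun x => by rw [hk x]; simp⟩
        · exact ⟨k, true, fun x => by rw [hk x]; simp⟩
      obtain ⟨k, s, hk⟩ := hlit
      -- any other value occurring also has a literal fibre; only two values occur
      have hlit' : ∀ u, (∃ y, φ y = u) → u ≠ φ x0 → ∀ x, decide (φ x = u) = !(decide (φ x = φ x0)) := by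
        rintro u ⟨y, rfl⟩ hu x
        have hy := h m _ (hfib (φ y))
        have hdis : ∀ z, ¬ (φ z = φ y ∧ φ z = φ x0) := fun z hz => hu (hz.1.symm.trans hz.2)
        rcases hy with ⟨b, hb⟩ | ⟨l, hl⟩ | ⟨l, hl⟩
        · exfalso
          have e1 := hb y
          have e2 := hb x0
          rw [← e1] at e2
          simp at e2
          exact hu e2.symm
        · -- fibre is `x l`
          have hl' : ∀ z, decide (φ z = φ y) = z l := fun z => hl z
          -- both literals: they must be complementary
          by_cases hkl : k = l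
          · subst hkl
            cases s
            · exfalso
              have e1 := hk (fun _ => true)
              have e2 := hl' (fun _ => true)
              simp at e1 e2
              exact hdis _ ⟨e2, e1⟩
            · rw [hl' x, hk x]
              simp
          · exfalso
            let z : Fin (m + 1) → Bool := fun a => if a = k then !s else true
            have e1 : decide (φ z = φ x0) = true := by
              rw [hk z]; simp [z]
            have e2 : decide (φ z = φ y) = true := by
              rw [hl' z]; simp [z, Ne.symm hkl]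
            exact hdis z ⟨by simpa using e2, by simpa using e1⟩
        · have hl' : ∀ z, decide (φ z = φ y) = !(z l) := fun z => hl z
          by_cases hkl : k = l
          · subst hkl
            cases s
            · rw [hl' x, hk x]
              simp
            · exfalso
              have e1 := hk (fun _ => false)
              have e2 := hl' (fun _ => false)
              simp at e1 e2
              exact hdis _ ⟨e2, e1⟩
          · exfalso
            let z : Fin (m + 1) → Bool := fun a => if a = k then !s else false
            have e1 : decide (φ z = φ x0) = true := by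
              rw [hk z]; simp [z]
            have e2 : decide (φ z = φ y) = true := by
              rw [hl' z]; simp [z, Ne.symm hkl]
            exact hdis z ⟨by simpa using e2, by simpa using e1⟩
      -- hence φ takes exactly the values φ x0, φ y0
      have hval : ∀ x, φ x ≠ φ x0 → φ x = φ y0 := by
        intro x hx
        have e1 := hlit' (φ y0) ⟨y0, rfl⟩ (Ne.symm hxy) x
        simpa [hx] using e1
      have ht' : t = fun x => if (s ^^ x k) = true then tt i (φ x0) else tt i (φ y0) := by
        funext x
        rw [hr x, ← hk x]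
        by_cases hx : φ x = φ x0
        · simp [hx]
        · simp [hval x hx, Ne.symm hxy]
      -- a third vertex gives the constant false
      obtain ⟨u, hu1, hu2⟩ : ∃ u : Fin (2 * i + 5), u ≠ φ x0 ∧ u ≠ φ y0 := by
        by_contra hcon
        push Not at hcon
        have h3 : Function.Injective (fun a : Fin 3 =>
            (⟨a.1, by omega⟩ : Fin (2 * i + 5))) := by
          intro a b hab
          simpa [Fin.ext_iff] using hab
        have h4 : ∀ a : Fin 3, (⟨a.1, by omega⟩ : Fin (2 * i + 5)) = φ x0 ∨
            (⟨a.1, by omega⟩ : Fin (2 * i + 5)) = φ y0 := by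
          intro a
          by_cases h5 : (⟨a.1, by omega⟩ : Fin (2 * i + 5)) = φ x0
          · exact Or.inl h5
          · exact Or.inr (hcon _ h5)
        rcases h4 0 with p0 | p0 <;> rcases h4 1 with p1 | p1 <;> rcases h4 2 with p2 | p2 <;>
          simp only [Fin.ext_iff] at p0 p1 p2 <;> simp at p0 p1 p2 <;> omega
      have c0 : (fun _ => false : TF m) ∈ D m := by
        have h2 := hfib u
        have e : (fun x => decide (φ x = u) : TF m) = fun _ => false := by
          funext x
          by_cases hx : φ x = φ x0
          · simpa [hx] using Ne.symm hu1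
          · rw [hval x hx]
            simpa using Ne.symm hu2
        rwa [e] at h2
      -- both literals belong to `D`
      have l1 := hfib (φ x0)
      have l2 : (fun x => !(decide (φ x = φ x0)) : TF m) ∈ D m := by
        have h2 := hfib (φ y0)
        have e : (fun x => decide (φ x = φ y0) : TF m) = fun x => !(decide (φ x = φ x0)) := by
          funext x
          exact hlit' (φ y0) ⟨y0, rfl⟩ (Ne.symm hxy) x
        rwa [e] at h2
      -- one of them is the negation of `x k`
      have hneg : (fun x => !(x k) : TF m) ∈ D m := by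
        cases s
        · have e : (fun x => !(decide (φ x = φ x0)) : TF m) = fun x => !(x k) := by
            funext x
            rw [hk x]; simp
          rwa [e] at l2
        · have e : (fun x => decide (φ x = φ x0) : TF m) = fun x => !(x k) := by
            funext x
            rw [hk x]; simp
          rwa [e] at l1
      have c1 : (fun _ => true : TF m) ∈ D m := by
        have h2 := hD.comp m m (fun x => !(x k)) (fun _ _ => false) hneg (fun _ => c0)
        simpa using h2
      rw [ht']
      cases e1 : tt i (φ x0) <;> cases e2 : tt i (φ y0)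
      · simpa using c0
      · have e : (fun x => if (s ^^ x k) = true then false else true : TF m) =
            fun x => !(decide (φ x = φ x0)) := by
          funext x
          rw [hk x]
          cases (s ^^ x k) <;> rfl
        rw [e]; exact l2
      · have e : (fun x => if (s ^^ x k) = true then true else false : TF m) =
            fun x => decide (φ x = φ x0) := by
          funext x
          rw [hk x]
          cases (s ^^ x k) <;> rfl
        rw [e]; exact l1
      · simpa using c1

end Pool.Agent.Q266.SPC
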