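import Pool.Agent.Q266.SPC.Gen

/-!
# Affine Boolean functions and functions that are not affine
-/

set_option autoImplicit false

namespace Pool.Agent.Q266.SPC

instance : Std.Commutative (fun a b : Bool => a ^^ b) := ⟨Bool.xor_comm⟩

instance : Std.Associative (fun a b : Bool => a ^^ b) := ⟨Bool.xor_assoc⟩

/-- The parity of `x` on `T`. -/
def par {n : ℕ} (T : Finset (Fin (n + 1))) (x : Fin (n + 1) → Bool) : Bool :=
  T.fold (fun a b => a ^^ b) false x

theorem par_empty {n : ℕ} (x : Fin (n + 1) → Bool) : par ∅ x = false := rfl

theorem par_insert {n : ℕ} {T : Finset (Fin (n + 1))} {a : Fin (n + 1)} (ha : a ∉ T)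
    (x : Fin (n + 1) → Bool) : par (insert a T) x = (x a ^^ par T x) := by
  unfold par
  rw [Finset.fold_insert ha]

theorem par_erase {n : ℕ} {T : Finset (Fin (n + 1))} {a : Fin (n + 1)} (ha : a ∈ T)
    (x : Fin (n + 1) → Bool) : par T x = (x a ^^ par (T.erase a) x) := by
  rw [← par_insert (Finset.notMem_erase a T), Finset.insert_erase ha]

theorem par_single {n : ℕ} (a : Fin (n + 1)) (x : Fin (n + 1) → Bool) : par {a} x = x a := by
  have := par_insert (T := ∅) (a := a) (by simp) x
  simpa [par_empty] using this

theorem par_true {n : ℕ} (T : Finset (Fin (n + 1))) :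
    par T (fun _ => true) = Nat.bodd T.card := by
  induction T using Finset.induction_on with
  | empty => simp [par_empty]
  | insert a T ha ih =>
    rw [par_insert ha, Finset.card_insert_of_notMem ha, ih, Nat.bodd_succ]
    cases Nat.bodd T.card <;> rfl

/-- Changing one coordinate. -/
def flip {n : ℕ} (u : Fin (n + 1) → Bool) (i : Fin (n + 1)) : Fin (n + 1) → Bool :=
  Function.update u i (!(u i))

theorem par_flip {n : ℕ} (T : Finset (Fin (n + 1))) (u : Fin (n + 1) → Bool) (a : Fin (n + 1)) :
    par T (flip u a) = (par T u ^^ decide (a ∈ T)) := by
  induction T using Finset.induction_on with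
  | empty => simp [par_empty]
  | insert t T ht ih =>
    rw [par_insert ht, par_insert ht, ih]
    by_cases hta : t = a
    · subst hta
      simp [flip, ht]
    · have : flip u a t = u t := by simp [flip, hta]
      rw [this]
      have h2 : (a ∈ insert t T) ↔ a ∈ T := by
        simp [Ne.symm hta]
      simp [h2]

/-- Vanishing second differences. -/
def SD {n : ℕ} (f : TF n) : Prop := ∀ (u : Fin (n + 1) → Bool) (i j : Fin (n + 1)), i ≠ j →
  (f u ^^ f (flip u i) ^^ f (flip u j) ^^ f (flip (flip u i) j)) = false

theorem flip_flip {n : ℕ} (u : Fin (n + 1) → Bool) (i : Fin (n + 1)) :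
    flip (flip u i) i = u := by
  funext k
  by_cases h : k = i
  · subst h; simp [flip]
  · simp [flip, h]

theorem flip_comm {n : ℕ} (u : Fin (n + 1) → Bool) {i j : Fin (n + 1)} (h : i ≠ j) :
    flip (flip u i) j = flip (flip u j) i := by
  funext k
  by_cases h1 : k = i
  · subst h1; simp [flip, h]
  · by_cases h2 : k = j
    · subst h2; simp [flip, h1]
    · simp [flip, h1, h2]

theorem ind_insert {n : ℕ} {S : Finset (Fin (n + 1))} {a : Fin (n + 1)} (ha : a ∉ S) :
    (fun k => decide (k ∈ insert a S)) = flip (fun k => decide (k ∈ S)) a := by
  funext k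
  by_cases h : k = a
  · subst h; simp [flip, ha]
  · simp [flip, h]

theorem SD.delta {n : ℕ} {f : TF n} (hf : SD f) (S : Finset (Fin (n + 1))) :
    ∀ i, (f (fun k => decide (k ∈ S)) ^^ f (flip (fun k => decide (k ∈ S)) i)) =
      (f (fun _ => false) ^^ f (flip (fun _ => false) i)) := by
  induction S using Finset.induction_on with
  | empty => intro i; simp
  | insert a S ha ih =>
    intro i
    rw [ind_insert ha, ← ih i]
    by_cases hia : i = a
    · subst hia
      rw [flip_flip]
      exact Bool.xor_comm _ _
    · have := hf (fun k => decide (k ∈ S)) i a hia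
      rw [flip_comm _ hia] at this
      revert this
      cases f (fun k => decide (k ∈ S)) <;> cases f (flip (fun k => decide (k ∈ S)) i) <;>
        cases f (flip (fun k => decide (k ∈ S)) a) <;>
        cases f (flip (flip (fun k => decide (k ∈ S)) a) i) <;> simp

theorem SD.formula {n : ℕ} {f : TF n} (hf : SD f) :
    ∃ T : Finset (Fin (n + 1)), ∀ x, f x = (f (fun _ => false) ^^ par T x) := by
  classical
  let T : Finset (Fin (n + 1)) := Finset.univ.filter
    (fun i => (f (fun _ => false) ^^ f (flip (fun _ => false) i)) = true)
  refine ⟨T, ?_⟩
  have key : ∀ S : Finset (Fin (n + 1)), f (fun k => decide (k ∈ S)) =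
      (f (fun _ => false) ^^ par T (fun k => decide (k ∈ S))) := by
    intro S
    induction S using Finset.induction_on with
    | empty =>
      have : par T (fun _ => false) = false := by
        have h2 : ∀ U : Finset (Fin (n + 1)), par U (fun _ => false) = false := by
          intro U
          induction U using Finset.induction_on with
          | empty => rfl
          | insert t U ht ih => rw [par_insert ht, ih]; rfl
        exact h2 T
      simp [this]
    | insert a S ha ih =>
      rw [ind_insert ha, par_flip]
      have h3 := hf.delta S a
      have h4 : decide (a ∈ T) = (f (fun _ => false) ^^ f (flip (fun _ => false) a)) := by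
        have h5 : (a ∈ T) ↔ ((f (fun _ => false) ^^ f (flip (fun _ => false) a)) = true) := by
          simp only [T, Finset.mem_filter, Finset.mem_univ, true_and]
        by_cases h : (f (fun _ => false) ^^ f (flip (fun _ => false) a)) = true
        · rw [h]
          exact decide_eq_true (h5.2 h)
        · have hfalse : (f (fun _ => false) ^^ f (flip (fun _ => false) a)) = false := by
            rwa [Bool.not_eq_true] at h
          rw [hfalse]
          exact decide_eq_false (fun h6 => h (h5.1 h6))
      rw [h4, ← h3, ih]
      cases f (fun _ => false) <;> cases par T (fun k => decide (k ∈ S)) <;>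
        cases f (flip (fun k => decide (k ∈ S)) a) <;> simp
  intro x
  have e : (fun k => decide (k ∈ Finset.univ.filter (fun k => x k = true))) = x := by
    funext k
    simp
  have := key (Finset.univ.filter (fun k => x k = true))
  rwa [e] at this

/-! ### Membership of affine functions -/

theorem par_mem_xor {E : TFam} (hE : IsClone E) (h : Cl2 E (· ^^ ·)) {n : ℕ}
    (T : Finset (Fin (n + 1))) : par T ∈ E n := by
  induction T using Finset.induction_on with
  | empty =>
    have h0 := h n _ (hE.proj n 0) _ (hE.proj n 0)
    have e : (fun x : Fin (n + 1) → Bool => (x 0 ^^ x 0)) = par ∅ := by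
      funext x
      simp [par_empty]
    rwa [e] at h0
  | insert a T ha ih =>
    have h0 := h n _ (hE.proj n a) _ ih
    have e : (fun x : Fin (n + 1) → Bool => (x a ^^ par T x)) = par (insert a T) := by
      funext x
      rw [par_insert ha]
    rwa [e] at h0

theorem par_mem_mnr {E : TFam} (hE : IsClone E) (h : Cl3 E mnr) {n : ℕ} :
    ∀ (k : ℕ) (T : Finset (Fin (n + 1))), T.card = 2 * k + 1 → par T ∈ E n := by
  intro k
  induction k with
  | zero =>
    intro T hT
    obtain ⟨a, rfl⟩ := Finset.card_eq_one.1 (show T.card = 1 by omega)
    have e : (fun x : Fin (n + 1) → Bool => x a) = par {a} := by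
      funext x
      rw [par_single]
    rw [← e]
    exact hE.proj n a
  | succ k ih =>
    intro T hT
    obtain ⟨i, hi, j, hj, hij⟩ := Finset.one_lt_card.1 (show 1 < T.card by omega)
    have hj' : j ∈ T.erase i := Finset.mem_erase.2 ⟨Ne.symm hij, hj⟩
    have h1 := ih ((T.erase i).erase j) (by
      rw [Finset.card_erase_of_mem hj', Finset.card_erase_of_mem hi]
      omega)
    have h2 := h n _ (hE.proj n i) _ (hE.proj n j) _ h1
    have e : (fun x : Fin (n + 1) → Bool => mnr (x i) (x j) (par ((T.erase i).erase j) x)) =
        par T := by
      funext x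
      rw [par_erase hi, par_erase hj']
      simp only [mnr]
      cases x i <;> cases x j <;> cases par ((T.erase i).erase j) x <;> rfl
    rwa [e] at h2

theorem gen_L {E : TFam} (hE : IsClone E) (h : Cl2 E (· ^^ ·))
    (c1 : (fun _ => true : TF 0) ∈ E 0) {n : ℕ} (f : TF n) (hf : SD f) : f ∈ E n := by
  obtain ⟨T, hT⟩ := hf.formula
  have h1 := par_mem_xor hE h T
  cases h0 : f (fun _ => false)
  · have e : f = par T := by
      funext x
      rw [hT x, h0]
      simp
    rwa [e]
  · have h2 := h n _ (const_mem hE true 0 n c1) _ h1
    have e : f = fun x => (true ^^ par T x) := by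
      funext x
      rw [hT x, h0]
    rwa [e]

theorem gen_L0 {E : TFam} (hE : IsClone E) (h : Cl2 E (· ^^ ·)) {n : ℕ} (f : TF n) (hf : SD f)
    (h0 : f (fun _ => false) = false) : f ∈ E n := by
  obtain ⟨T, hT⟩ := hf.formula
  have h1 := par_mem_xor hE h T
  have e : f = par T := by
    funext x
    rw [hT x, h0]
    simp
  rwa [e]

theorem odd_of_par {n : ℕ} {T : Finset (Fin (n + 1))} (h : par T (fun _ => true) = true) :
    ∃ k, T.card = 2 * k + 1 := by
  rw [par_true] at h
  refine ⟨Nat.div2 T.card, ?_⟩
  have := Nat.bodd_add_div2 T.card
  rw [h] at this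
  simp at this
  omega

theorem gen_LS {E : TFam} (hE : IsClone E) (h : Cl3 E mnr) (hn : Cl1 E (! ·)) {n : ℕ} (f : TF n)
    (hf : SD f) (hs : SDual f) : f ∈ E n := by
  obtain ⟨T, hT⟩ := hf.formula
  have h1 : par T (fun _ => true) = true := by
    have e1 := hT (fun _ => true)
    have e2 := hs (fun _ => false)
    simp only [Bool.not_false] at e2
    rw [e2] at e1
    revert e1
    cases f (fun _ => false) <;> cases par T (fun _ => true) <;> simp
  obtain ⟨k, hk⟩ := odd_of_par h1
  have h2 := par_mem_mnr hE h k T hk
  cases h0 : f (fun _ => false)
  · have e : f = par T := by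
      funext x
      rw [hT x, h0]
      simp
    rwa [e]
  · have h3 := hn n _ h2
    have e : f = fun x => !(par T x) := by
      funext x
      rw [hT x, h0]
      simp
    rwa [e]

theorem gen_L01 {E : TFam} (hE : IsClone E) (h : Cl3 E mnr) {n : ℕ} (f : TF n)
    (hf : SD f) (h0 : f (fun _ => false) = false) (h3 : f (fun _ => true) = true) : f ∈ E n := by
  obtain ⟨T, hT⟩ := hf.formula
  have h1 : par T (fun _ => true) = true := by
    have e1 := hT (fun _ => true)
    rw [h0, h3] at e1
    simpa using e1.symm
  obtain ⟨k, hk⟩ := odd_of_par h1
  have h2 := par_mem_mnr hE h k T hk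
  have e : f = par T := by
    funext x
    rw [hT x, h0]
    simp
  rwa [e]

/-! ### Functions that are not affine -/

/-- Setting two coordinates. -/
def upd {n : ℕ} (u : Fin (n + 1) → Bool) (i j : Fin (n + 1)) (p q : Bool) : Fin (n + 1) → Bool :=
  fun k => if k = i then p else if k = j then q else u k

theorem not_SD {n : ℕ} {f : TF n} (hf : ¬ SD f) : ∃ (u : Fin (n + 1) → Bool) (i j : Fin (n + 1)),
    i ≠ j ∧ (f (upd u i j false false) ^^ f (upd u i j true false) ^^
      f (upd u i j false true) ^^ f (upd u i j true true)) = true := by
  unfold SD at hf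
  push Not at hf
  obtain ⟨u, i, j, hij, h⟩ := hf
  refine ⟨u, i, j, hij, ?_⟩
  have e1 : u = upd u i j (u i) (u j) := by
    funext k
    by_cases h1 : k = i
    · subst h1; simp [upd]
    · by_cases h2 : k = j
      · subst h2; simp [upd, h1]
      · simp [upd, h1, h2]
  have e2 : flip u i = upd u i j (!(u i)) (u j) := by
    funext k
    by_cases h1 : k = i
    · subst h1; simp [upd, flip]
    · by_cases h2 : k = j
      · subst h2; simp [upd, flip, h1]
      · simp [upd, flip, h1, h2]
  have e3 : flip u j = upd u i j (u i) (!(u j)) := by
    funext k
    by_cases h1 : k = i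
    · subst h1; simp [upd, flip, hij]
    · by_cases h2 : k = j
      · subst h2; simp [upd, flip, h1]
      · simp [upd, flip, h1, h2]
  have e4 : flip (flip u i) j = upd u i j (!(u i)) (!(u j)) := by
    funext k
    by_cases h1 : k = i
    · subst h1; simp [upd, flip, hij]
    · by_cases h2 : k = j
      · subst h2; simp [upd, flip, h1]
      · simp [upd, flip, h1, h2]
  have h' : (f (upd u i j (u i) (u j)) ^^ f (upd u i j (!(u i)) (u j)) ^^
      f (upd u i j (u i) (!(u j))) ^^ f (upd u i j (!(u i)) (!(u j)))) = true := by
    rw [← e1, ← e2, ← e3, ← e4]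
    simpa using h
  revert h'
  cases u i <;> cases u j <;> simp only [Bool.not_true, Bool.not_false] <;>
    cases f (upd u i j false false) <;> cases f (upd u i j true false) <;> cases f (upd u i j false true) <;>
    cases f (upd u i j true true) <;> simp

theorem xor_const_mem {E : TFam} (hn : Cl1 E (! ·)) (c : Bool) {n : ℕ} {f : TF n} (hf : f ∈ E n) :
    (fun x => (f x ^^ c)) ∈ E n := by
  cases c
  · simpa using hf
  · have := hn n f hf
    simpa using this

/-- With constants and negation, a function that is not affine yields the conjunction. -/
theorem and_of_not_SD {E : TFam} (hE : IsClone E) (hn : Cl1 E (! ·))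
    (c0 : (fun _ => false : TF 0) ∈ E 0) (c1 : (fun _ => true : TF 0) ∈ E 0) {n : ℕ} {f : TF n}
    (hfE : f ∈ E n) (hf : ¬ SD f) : Cl2 E (· && ·) := by
  obtain ⟨u, i, j, hij, h⟩ := not_SD hf
  have ht := hE.comp n 1 f (fun k => if k = i then (fun x => x 0) else if k = j then
    (fun x => x 1) else (fun _ => u k)) hfE (by
      intro k
      by_cases h1 : k = i
      · simp only [h1, if_true]; exact hE.proj 1 0
      · by_cases h2 : k = j
        · simp only [h2, if_true]
          rw [if_neg (Ne.symm hij)]
          exact hE.proj 1 1
        · simp only [h1, h2, if_false]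
          cases u k
          · exact const_mem hE false 0 1 c0
          · exact const_mem hE true 0 1 c1)
  have hcl : Cl2 E (fun x y => f (upd u i j x y)) := by
    refine Cl2.of_mem hE ht ?_
    intro x y
    show f (fun k => (if k = i then (fun x => x 0) else if k = j then
      (fun x => x 1) else (fun _ => u k) : TF 1) ![x, y]) = _
    congr 1
    funext k
    unfold upd
    by_cases h1 : k = i
    · simp [h1]
    · by_cases h2 : k = j
      · simp [h2, Ne.symm hij]
      · simp [h1, h2]
  intro m g hg g' hg'
  have h3 := xor_const_mem hn (f (upd u i j false false) ^^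
    ((f (upd u i j true false) ^^ f (upd u i j false false)) &&
      (f (upd u i j false true) ^^ f (upd u i j false false))))
    (hcl m _ (xor_const_mem hn (f (upd u i j false true) ^^ f (upd u i j false false)) hg) _
      (xor_const_mem hn (f (upd u i j true false) ^^ f (upd u i j false false)) hg'))
  convert h3 using 1
  funext x
  generalize g x = a
  generalize g' x = b
  revert h
  cases h00 : f (upd u i j false false) <;> cases h10 : f (upd u i j true false) <;>
    cases h01 : f (upd u i j false true) <;> cases h11 : f (upd u i j true true) <;>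
    cases a <;> cases b <;> simp [h00, h10, h01, h11]

/-- A zero preserving function that is not affine yields the conjunction from `xor`. -/
theorem and_of_not_SD_xor {E : TFam} (hE : IsClone E) (hx : Cl2 E (· ^^ ·)) {n : ℕ} {f : TF n}
    (hfE : f ∈ E n) (h0 : f (fun _ => false) = false) (hf : ¬ SD f) : Cl2 E (· && ·) := by
  -- a failure of additivity
  obtain ⟨a, b, hab⟩ : ∃ a b : Fin (n + 1) → Bool,
      (f a ^^ f b ^^ f (fun k => (a k ^^ b k))) = true := by
    by_contra hcon
    push Not at hcon
    apply hf
    intro u i j hij
    -- `e i` the unit vectors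
    have hadd : ∀ a b : Fin (n + 1) → Bool, f (fun k => (a k ^^ b k)) = (f a ^^ f b) := by
      intro a b
      have := hcon a b
      revert this
      cases f a <;> cases f b <;> cases f (fun k => (a k ^^ b k)) <;> simp
    have hfl : ∀ (v : Fin (n + 1) → Bool) (i : Fin (n + 1)),
        f (flip v i) = (f v ^^ f (fun k => decide (k = i))) := by
      intro v i
      rw [← hadd]
      congr 1
      funext k
      by_cases h : k = i
      · subst h; simp [flip]
      · simp [flip, h]
    rw [hfl, hfl, hfl (flip u i) j, hfl]
    cases f u <;> cases f (fun k => decide (k = i)) <;> cases f (fun k => decide (k = j)) <;> rfl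
  have c0 : (fun _ => false : TF 1) ∈ E 1 := by
    have := hx 1 _ (hE.proj 1 0) _ (hE.proj 1 0)
    simpa using this
  have ht := hE.comp n 1 f (fun k => if a k = true then (if b k = true then
      (fun x => (x 0 ^^ x 1)) else (fun x => x 0)) else (if b k = true then (fun x => x 1) else
      (fun _ => false))) hfE (by
      intro k
      split_ifs
      · exact hx 1 _ (hE.proj 1 0) _ (hE.proj 1 1)
      · exact hE.proj 1 0
      · exact hE.proj 1 1
      · exact c0)
  have hcl : Cl2 E (fun x y => f (fun k => ((a k && x) ^^ (b k && y)))) := by
    refine Cl2.of_mem hE ht ?_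
    intro x y
    congr 1
    funext k
    cases a k <;> cases b k <;> simp
  intro m g hg g' hg'
  have h1 : ∀ (c : Bool) {k : TF m}, k ∈ E m → (fun x => (c && k x)) ∈ E m := by
    intro c k hk
    cases c
    · have := hx m _ (hE.proj m 0) _ (hE.proj m 0)
      simpa using this
    · simpa using hk
  have h3 := hx m _ (hx m _ (hcl m g hg g' hg') _ (h1 (f a) hg)) _ (h1 (f b) hg')
  convert h3 using 1
  funext x
  show (g x && g' x) = ((f (fun k => ((a k && g x) ^^ (b k && g' x))) ^^ (f a && g x)) ^^
    (f b && g' x))
  generalize g x = p
  generalize g' x = q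
  have e1 : f (fun k => ((a k && true) ^^ (b k && true))) = f (fun k => (a k ^^ b k)) := by simp
  have e2 : f (fun k => ((a k && true) ^^ (b k && false))) = f a := by simp
  have e3 : f (fun k => ((a k && false) ^^ (b k && true))) = f b := by simp
  have e4 : f (fun k => ((a k && false) ^^ (b k && false))) = false := by simpa using h0
  cases p <;> cases q
  · rw [e4]; simp
  · rw [e3]; cases f a <;> cases f b <;> simp
  · rw [e2]; cases f a <;> cases f b <;> simp
  · rw [e1]
    revert hab
    cases f a <;> cases f b <;> cases f (fun k => (a k ^^ b k)) <;> simp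

/-- With negation, a self-dual function that is not affine yields the majority function. -/
theorem maj_of_not_SD_neg {E : TFam} (hE : IsClone E) (hn : Cl1 E (! ·)) {n : ℕ} {f : TF n}
    (hfE : f ∈ E n) (hs : SDual f) (hf : ¬ SD f) : Cl3 E maj := by
  obtain ⟨u, i, j, hij, h⟩ := not_SD hf
  have ht := hE.comp n 2 f (fun k => if k = i then (fun x => x 0) else if k = j then
    (fun x => x 1) else if u k = true then (fun x => x 2) else (fun x => !(x 2))) hfE (by
      intro k
      split_ifs
      · exact hE.proj 2 0
      · exact hE.proj 2 1
      · exact hE.proj 2 2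
      · exact hn 2 _ (hE.proj 2 2))
  let t : Bool → Bool → Bool → Bool := fun x y z =>
    f (fun k => if k = i then x else if k = j then y else (u k == z))
  have hcl : Cl3 E t := by
    refine Cl3.of_mem hE ht ?_
    intro x y z
    show f _ = f _
    congr 1
    funext k
    by_cases h1 : k = i
    · simp [h1]
    · by_cases h2 : k = j
      · simp [h2, Ne.symm hij]
      · cases hu : u k <;> cases z <;> simp [h1, h2, hu]
  have ht1 : ∀ x y, t x y true = f (upd u i j x y) := by
    intro x y
    show f _ = f _
    congr 1
    funext k
    unfold upd
    by_cases h1 : k = i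
    · simp [h1]
    · by_cases h2 : k = j
      · simp [h2, Ne.symm hij]
      · simp [h1, h2]
  have ht0 : ∀ x y, t x y false = !(f (upd u i j (!x) (!y))) := by
    intro x y
    rw [← hs]
    show f _ = f _
    congr 1
    funext k
    unfold upd
    by_cases h1 : k = i
    · simp [h1]
    · by_cases h2 : k = j
      · simp [h2, Ne.symm hij]
      · simp [h1, h2]
  intro m g hg g' hg' g'' hg''
  have h3 := xor_const_mem hn (f (upd u i j false false) ^^
    ((f (upd u i j true false) ^^ f (upd u i j false false)) &&
      (f (upd u i j false true) ^^ f (upd u i j false false))))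
    (hcl m _ (xor_const_mem hn (f (upd u i j false true) ^^ f (upd u i j false false)) hg) _
      (xor_const_mem hn (f (upd u i j true false) ^^ f (upd u i j false false)) hg') _
      (hn m g'' hg''))
  convert h3 using 1
  funext x
  generalize g x = a
  generalize g' x = b
  generalize g'' x = c
  revert h
  cases c
  · simp only [Bool.not_false, ht1]
    cases h00 : f (upd u i j false false) <;> cases h10 : f (upd u i j true false) <;>
      cases h01 : f (upd u i j false true) <;> cases h11 : f (upd u i j true true) <;>
      cases a <;> cases b <;> simp [h00, h10, h01, h11, maj]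
  · simp only [Bool.not_true, ht0]
    cases h00 : f (upd u i j false false) <;> cases h10 : f (upd u i j true false) <;>
      cases h01 : f (upd u i j false true) <;> cases h11 : f (upd u i j true true) <;>
      cases a <;> cases b <;> simp [h00, h10, h01, h11, maj]

/-- A self-dual idempotent function that is not affine yields the majority function. -/
theorem maj_of_not_SD {E : TFam} (hE : IsClone E)
    (hS : ∀ n, ∀ f ∈ E n, SDual f) (hI : ∀ n, ∀ f ∈ E n, f (fun _ => true) = true)
    {n : ℕ} {f : TF n} (hfE : f ∈ E n) (hf : ¬ SD f) : Cl3 E maj := by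
  -- a ternary function with the right parity
  have tern : ∀ t ∈ E 2, (t ![true, false, false] ^^ t ![false, true, false] ^^
      t ![false, false, true]) = false → Cl3 E maj := by
    intro t ht hpar
    have hcl : Cl3 E (fun x y z => t ![x, y, z]) := Cl3.of_mem hE ht (fun x y z => rfl)
    have hdual : ∀ x y z, t ![!x, !y, !z] = !(t ![x, y, z]) := by
      intro x y z
      rw [← hS 2 t ht]
      congr 1
      funext k
      fin_cases k <;> rfl
    have h111 : t ![true, true, true] = true := by
      have e : (![true, true, true] : Fin 3 → Bool) = fun _ => true := by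
        funext k
        fin_cases k <;> rfl
      rw [e]
      exact hI 2 t ht
    have h000 : t ![false, false, false] = false := by
      have := hdual true true true
      rw [h111] at this
      simpa using this
    have d1 := hdual true false false
    have d2 := hdual false true false
    have d3 := hdual false false true
    simp only [Bool.not_true, Bool.not_false] at d1 d2 d3
    rcases h1 : t ![true, false, false] with _ | _ <;>
      rcases h2 : t ![false, true, false] with _ | _ <;>
      rcases h3 : t ![false, false, true] with _ | _ <;>
      rw [h1, h2, h3] at hpar <;> rw [h1] at d1 <;> rw [h2] at d2 <;> rw [h3] at d3 <;>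
      simp only [Bool.not_true, Bool.not_false] at d1 d2 d3 <;> simp at hpar
    · -- majority
      refine hcl.congr ?_
      intro x y z
      cases x <;> cases y <;> cases z <;>
        simp [h000, h111, h1, h2, h3, d1, d2, d3, maj]
    · -- `t = maj (!x) y z`
      intro m g hg g' hg' g'' hg''
      have h4 := hcl m _ (hcl m g hg g' hg' g'' hg'') g' hg' g'' hg''
      convert h4 using 1
      funext x
      generalize g x = a
      generalize g' x = b
      generalize g'' x = c
      cases a <;> cases b <;> cases c <;>
        simp [h000, h111, h1, h2, h3, d1, d2, d3, maj]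
    · -- `t = maj x (!y) z`
      intro m g hg g' hg' g'' hg''
      have h4 := hcl m g hg _ (hcl m g hg g' hg' g'' hg'') g'' hg''
      convert h4 using 1
      funext x
      generalize g x = a
      generalize g' x = b
      generalize g'' x = c
      cases a <;> cases b <;> cases c <;>
        simp [h000, h111, h1, h2, h3, d1, d2, d3, maj]
    · -- `t = maj x y (!z)`
      intro m g hg g' hg' g'' hg''
      have h4 := hcl m g hg g' hg' _ (hcl m g hg g' hg' g'' hg'')
      convert h4 using 1
      funext x
      generalize g x = a
      generalize g' x = b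
      generalize g'' x = c
      cases a <;> cases b <;> cases c <;>
        simp [h000, h111, h1, h2, h3, d1, d2, d3, maj]
  obtain ⟨u, i, j, hij, h⟩ := not_SD hf
  let A : Bool → Bool := fun p => f (fun k => if k = i then p else true)
  -- the two minors
  have ht1 := hE.comp n 2 f (fun k => if k = i then (fun x => x 0) else if k = j then
    (fun x => x 1) else if u k = true then (fun x => x 2) else (fun x => x 1)) hfE (by
      intro k
      split_ifs
      · exact hE.proj 2 0
      · exact hE.proj 2 1
      · exact hE.proj 2 2
      · exact hE.proj 2 1)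
  have ht2 := hE.comp n 2 f (fun k => if k = i then (fun x => x 0) else if k = j then
    (fun x => x 1) else if u k = true then (fun x => x 1) else (fun x => x 2)) hfE (by
      intro k
      split_ifs
      · exact hE.proj 2 0
      · exact hE.proj 2 1
      · exact hE.proj 2 1
      · exact hE.proj 2 2)
  set t1 : TF 2 := (fun x => f (fun k => (if k = i then (fun x => x 0) else if k = j then
    (fun x => x 1) else if u k = true then (fun x => x 2) else (fun x => x 1) : TF 2) x)) with ht1d
  set t2 : TF 2 := (fun x => f (fun k => (if k = i then (fun x => x 0) else if k = j then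
    (fun x => x 1) else if u k = true then (fun x => x 1) else (fun x => x 2) : TF 2) x)) with ht2d
  have a1 : ∀ p, t1 ![p, false, true] = f (upd u i j p false) := by
    intro p
    rw [ht1d]
    show f _ = f _
    congr 1
    funext k
    unfold upd
    by_cases h1 : k = i
    · simp [h1]
    · by_cases h2 : k = j
      · simp [h2, Ne.symm hij]
      · cases hu : u k <;> simp [h1, h2, hu]
  have a2 : ∀ p, t1 ![p, true, true] = A p := by
    intro p
    rw [ht1d]
    show f _ = f _
    congr 1
    funext k
    by_cases h1 : k = i
    · simp [h1]
    · by_cases h2 : k = j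
      · simp [h2, Ne.symm hij]
      · cases hu : u k <;> simp [h1, h2, hu]
  have a3 : ∀ p, t2 ![p, true, false] = f (upd u i j p true) := by
    intro p
    rw [ht2d]
    show f _ = f _
    congr 1
    funext k
    unfold upd
    by_cases h1 : k = i
    · simp [h1]
    · by_cases h2 : k = j
      · simp [h2, Ne.symm hij]
      · cases hu : u k <;> simp [h1, h2, hu]
  have a4 : ∀ p, t2 ![p, true, true] = A p := by
    intro p
    rw [ht2d]
    show f _ = f _
    congr 1
    funext k
    by_cases h1 : k = i
    · simp [h1]
    · by_cases h2 : k = j
      · simp [h2, Ne.symm hij]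
      · cases hu : u k <;> simp [h1, h2, hu]
  have hA1 : A true = true := by
    have e : (fun k : Fin (n + 1) => if k = i then true else true) = fun _ => true := by
      funext k
      simp
    show f (fun k => if k = i then true else true) = true
    rw [e]
    exact hI n f hfE
  have dual1 : ∀ (t : TF 2), t ∈ E 2 → ∀ x y z, t ![!x, !y, !z] = !(t ![x, y, z]) := by
    intro t ht x y z
    rw [← hS 2 t ht]
    congr 1
    funext k
    fin_cases k <;> rfl
  rw [← a1, ← a1, ← a3, ← a3] at h
  by_cases hc : (t1 ![false, false, true] ^^ t1 ![true, false, true] ^^ A false) = false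
  · refine tern t1 ht1 ?_
    have d1 := dual1 t1 ht1 true false false
    have d2 := dual1 t1 ht1 false true false
    simp only [Bool.not_true, Bool.not_false] at d1 d2
    rw [← a2, d1, d2] at hc
    revert hc
    cases t1 ![true, false, false] <;> cases t1 ![false, true, false] <;>
      cases t1 ![false, false, true] <;> simp
  · refine tern t2 ht2 ?_
    have d1 := dual1 t2 ht2 true false false
    have d3 := dual1 t2 ht2 false false true
    simp only [Bool.not_true, Bool.not_false] at d1 d3
    have e : A false = t2 ![false, true, true] := (a4 false).symm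
    have hc' : (t1 ![false, false, true] ^^ t1 ![true, false, true] ^^ A false) = true := by
      simpa using hc
    have h2 : (t2 ![false, true, false] ^^ t2 ![true, true, false] ^^ A false) = false := by
      revert h hc'
      cases t1 ![false, false, true] <;> cases t1 ![true, false, true] <;>
        cases t2 ![false, true, false] <;> cases t2 ![true, true, false] <;>
        cases A false <;> simp
    rw [e, d1, d3] at h2
    revert h2
    cases t2 ![true, false, false] <;> cases t2 ![false, true, false] <;>
      cases t2 ![false, false, true] <;> simp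

end Pool.Agent.Q266.SPC
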