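import Pool.Agent.Q266.SPC.Gen

/-!
# Clones all of whose strong partial clones are easily described
-/

set_option autoImplicit false

namespace Pool.Agent.Q266.SPC

theorem emb_all {C D : TFam} (hD : IsClone D) (h : ∀ n, D n ⊆ C n)
    (hC : ∀ n (f : TF n), f ∈ C n) : Emb C D := by
  refine emb_of_str hD h ?_
  intro X _ n f _
  right
  exact ⟨fun x => (f x).getD false, hC n _, fun x b hx => by simp [hx]⟩

theorem emb_T0 {C D : TFam} (hD : IsClone D) (h : ∀ n, D n ⊆ C n)
    (hC : ∀ n (f : TF n), f (fun _ => false) = false → f ∈ C n)
    (h1 : (fun _ => true : TF 0) ∉ C 0) : Emb C D := by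
  refine emb_of_str hD h ?_
  intro X hX n f hf
  right
  refine ⟨fun x => (f x).getD false, hC n _ ?_, fun x b hx => by simp [hx]⟩
  rcases hf0 : f (fun _ => false) with _ | b
  · simp
  · cases b
    · simp
    · exfalso
      apply h1
      exact sub_total hX hf (g := fun _ _ => false) (fun _ => hC 0 _ rfl) _ (fun _ => hf0)

/-- Total self-dual extension. -/
def ext {n : ℕ} (f : PF n) : TF n := fun x =>
  match f x with
  | some b => b
  | none =>
    match f (fun k => !(x k)) with
    | some c => !c
    | none => x 0

theorem ext_some {n : ℕ} {f : PF n} {x : Fin (n + 1) → Bool} {b : Bool} (h : f x = some b) :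
    ext f x = b := by
  unfold ext
  rw [h]

theorem ext_dual {n : ℕ} {f : PF n}
    (hf : ∀ x b c, f x = some b → f (fun k => !(x k)) = some c → c = !b) : SDual (ext f) := by
  intro x
  have e : (fun k => !(!(x k))) = x := by
    funext k
    simp
  rcases h1 : f x with _ | b
  · rcases h2 : f (fun k => !(x k)) with _ | c
    · simp [ext, h1, h2]
    · simp [ext, h1, h2]
  · rcases h2 : f (fun k => !(x k)) with _ | c
    · simp [ext, h1, h2]
    · have := hf x b c h1 h2
      simp [ext, h1, h2, this]

theorem emb_S {C D : TFam} (hC' : IsClone C) (hD : IsClone D) (h : ∀ n, D n ⊆ C n)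
    (hC : ∀ n (f : TF n), SDual f → f ∈ C n) (hS : ∀ n, ∀ f ∈ C n, SDual f) : Emb C D := by
  refine emb_of_str hD h ?_
  intro X hX n f hf
  right
  refine ⟨ext f, hC n _ (ext_dual ?_), fun x b hx => ext_some hx⟩
  intro a b c hb hc
  by_contra hne
  have hbc : c = b := by
    revert hne
    cases b <;> cases c <;> simp
  subst hbc
  have hconst : (fun _ => c : TF 0) ∈ C 0 := by
    refine sub_total hX hf (g := fun k x => if a k = true then x 0 else !(x 0)) ?_ _ ?_
    · intro k
      cases hk : a k
      · simp only [Bool.false_eq_true, if_false]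
        refine hC 0 _ ?_
        intro x
        simp
      · simp only [if_true]
        exact hC'.proj 0 0
    · intro x
      cases hx : x 0
      · have e : (fun k => if a k = true then false else !false) = fun k => !(a k) := by
          funext k
          cases a k <;> rfl
        rw [e]
        exact hc
      · have e : (fun k => if a k = true then true else !true) = a := by
          funext k
          cases a k <;> rfl
        rw [e]
        exact hb
  have := hS 0 _ hconst (fun _ => false)
  revert this
  cases c <;> simp

/-- Partial functions undefined at one of the two constant tuples. -/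
theorem mem_Q_of_none {D : TFam} (h0 : ∀ n, ∀ f ∈ D n, f (fun _ => false) = false)
    (h1 : ∀ n, ∀ f ∈ D n, f (fun _ => true) = true) {n : ℕ} {f : PF n}
    (hf : f (fun _ => false) = none ∨ f (fun _ => true) = none) : f ∈ Q D n := by
  intro m g t hg ht
  exfalso
  rcases hf with hf | hf
  · have := ht (fun _ => false)
    have e : (fun i => g i (fun _ => false)) = fun _ => false := by
      funext i
      exact h0 m _ (hg i)
    rw [e, hf] at this
    exact absurd this (by simp)
  · have := ht (fun _ => true)
    have e : (fun i => g i (fun _ => true)) = fun _ => true := by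
      funext i
      exact h1 m _ (hg i)
    rw [e, hf] at this
    exact absurd this (by simp)

/-- Values at the constant tuples, if both are defined. -/
theorem idem_values {C : TFam} (hC' : IsClone C)
    (h0 : ∀ n, ∀ f ∈ C n, f (fun _ => false) = false)
    (h1 : ∀ n, ∀ f ∈ C n, f (fun _ => true) = true) {X : Fam} (hX : X ∈ IStr C) {n : ℕ}
    {f : PF n} (hf : f ∈ X n) {b c : Bool} (hb : f (fun _ => false) = some b)
    (hc : f (fun _ => true) = some c) : b = false ∧ c = true := by
  have ht : (fun x => if x 0 = true then c else b : TF 0) ∈ C 0 := by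
    refine sub_total hX hf (g := fun _ x => x 0) (fun _ => hC'.proj 0 0) _ ?_
    intro x
    cases hx : x 0
    · simpa using hb
    · simpa using hc
  refine ⟨?_, ?_⟩
  · simpa using h0 0 _ ht
  · simpa using h1 0 _ ht

theorem emb_T01 {C D : TFam} (hC' : IsClone C) (hD : IsClone D) (h : ∀ n, D n ⊆ C n)
    (hC : ∀ n (f : TF n), f (fun _ => false) = false → f (fun _ => true) = true → f ∈ C n)
    (h0 : ∀ n, ∀ f ∈ C n, f (fun _ => false) = false)
    (h1 : ∀ n, ∀ f ∈ C n, f (fun _ => true) = true) : Emb C D := by
  refine emb_of_str hD h ?_
  intro X hX n f hf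
  rcases hb : f (fun _ => false) with _ | b
  · left
    exact mem_Q_of_none (fun n f hf => h0 n f (h n hf)) (fun n f hf => h1 n f (h n hf)) (Or.inl hb)
  rcases hc : f (fun _ => true) with _ | c
  · left
    exact mem_Q_of_none (fun n f hf => h0 n f (h n hf)) (fun n f hf => h1 n f (h n hf)) (Or.inr hc)
  right
  obtain ⟨rfl, rfl⟩ := idem_values hC' h0 h1 hX hf hb hc
  refine ⟨fun x => (f x).getD (x 0), hC n _ ?_ ?_, fun x b hx => by simp [hx]⟩
  · simp [hb]
  · simp [hc]

theorem emb_D1 {C D : TFam} (hC' : IsClone C) (hD : IsClone D) (h : ∀ n, D n ⊆ C n)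
    (hC : ∀ n (f : TF n), SDual f → f (fun _ => false) = false → f (fun _ => true) = true →
      f ∈ C n)
    (hS : ∀ n, ∀ f ∈ C n, SDual f)
    (h0 : ∀ n, ∀ f ∈ C n, f (fun _ => false) = false)
    (h1 : ∀ n, ∀ f ∈ C n, f (fun _ => true) = true) : Emb C D := by
  refine emb_of_str hD h ?_
  intro X hX n f hf
  rcases hb : f (fun _ => false) with _ | b
  · left
    exact mem_Q_of_none (fun n f hf => h0 n f (h n hf)) (fun n f hf => h1 n f (h n hf)) (Or.inl hb)
  rcases hc : f (fun _ => true) with _ | c
  · left
    exact mem_Q_of_none (fun n f hf => h0 n f (h n hf)) (fun n f hf => h1 n f (h n hf)) (Or.inr hc)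
  right
  obtain ⟨rfl, rfl⟩ := idem_values hC' h0 h1 hX hf hb hc
  refine ⟨ext f, hC n _ (ext_dual ?_) (ext_some hb) (ext_some hc), fun x b hx => ext_some hx⟩
  intro a p q hp hq
  have ht : (fun x => if x 0 = true then (if x 1 = true then true else p) else
      (if x 1 = true then q else false) : TF 1) ∈ C 1 := by
    refine sub_total hX hf (g := fun k x => if a k = true then x 0 else x 1) ?_ _ ?_
    · intro k
      cases a k
      · simpa using hC'.proj 1 1
      · simpa using hC'.proj 1 0
    · intro x
      cases hx : x 0 <;> cases hy : x 1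
      · simpa using hb
      · have e : (fun k => if a k = true then false else true) = fun k => !(a k) := by
          funext k
          cases a k <;> rfl
        rw [e]
        simpa using hq
      · have e : (fun k => if a k = true then true else false) = a := by
          funext k
          cases a k <;> rfl
        rw [e]
        simpa using hp
      · simpa using hc
  have := hS 1 _ ht ![true, false]
  simpa using this

end Pool.Agent.Q266.SPC
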