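import Pool.Agent.Q266.SPC.Dual
import Pool.Agent.Q266.SPC.Lin
import Pool.Agent.Q266.SPC.Singles

/-!
# Order embeddings between all intervals of strong partial clones
-/

set_option autoImplicit false

namespace Pool.Agent.Q266.SPC

theorem emb_of_sub {C D : TFam} (h : ∀ n, D n ⊆ C n) (h' : ∀ n, ∀ f ∈ C n, f ∈ D n) : Emb C D := by
  have : C = D := by
    funext n
    exact Set.Subset.antisymm (fun f hf => h' n f hf) (h n)
  rw [this]
  exact emb_refl D

theorem par_congr {n : ℕ} (T : Finset (Fin (n + 1))) (x y : Fin (n + 1) → Bool)
    (h : ∀ k ∈ T, x k = y k) : par T x = par T y := by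
  induction T using Finset.induction_on with
  | empty => rfl
  | insert a T ha ih =>
    rw [par_insert ha, par_insert ha, h a (Finset.mem_insert_self a T),
      ih (fun k hk => h k (Finset.mem_insert_of_mem hk))]

theorem par_false {n : ℕ} (T : Finset (Fin (n + 1))) : par T (fun _ => false) = false := by
  induction T using Finset.induction_on with
  | empty => rfl
  | insert t U ht ih => rw [par_insert ht, ih]; rfl

/-- The support of an affine function that is not essentially unary has two elements. -/
theorem two_of_not_unary {n : ℕ} {f : TF n} {c : Bool} {T : Finset (Fin (n + 1))}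
    (hT : ∀ x, f x = (c ^^ par T x))
    (hu : ¬ ((∃ b, ∀ x, f x = b) ∨ (∃ k, ∀ x, f x = x k) ∨ ∃ k, ∀ x, f x = !(x k))) :
    ∃ i ∈ T, ∃ j ∈ T, i ≠ j := by
  by_contra hcon
  apply hu
  rcases T.eq_empty_or_nonempty with rfl | ⟨a, ha⟩
  · left
    exact ⟨c, fun x => by rw [hT x, par_empty]; simp⟩
  · have hT' : T = {a} := by
      apply Finset.eq_singleton_iff_unique_mem.2
      refine ⟨ha, fun b hb => ?_⟩
      by_contra hne
      exact hcon ⟨b, hb, a, ha, hne⟩
    subst hT'
    right
    cases c
    · left
      exact ⟨a, fun x => by rw [hT x, par_single]; simp⟩
    · right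
      exact ⟨a, fun x => by rw [hT x, par_single]; simp⟩

/-! ### Both constants in `D` -/

theorem neg_of_not_mono {E : TFam} (hE : IsClone E)
    (c0 : (fun _ => false : TF 0) ∈ E 0) (c1 : (fun _ => true : TF 0) ∈ E 0) {n : ℕ} {f : TF n}
    (hf : f ∈ E n) (hm : ¬ Mono f) : Cl1 E (! ·) := by
  unfold Mono at hm
  push Not at hm
  obtain ⟨a, b, hab, ha, hb⟩ := hm
  have ht := hE.comp n 0 f (fun k => if a k = true then (fun _ => true) else
    (if b k = true then (fun x => x 0) else (fun _ => false))) hf (by
      intro k
      split_ifs
      · exact c1
      · exact hE.proj 0 0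
      · exact c0)
  refine Cl1.of_mem hE ht ?_
  intro x
  cases x
  · have e : (fun k => (if a k = true then (fun _ => true) else
        (if b k = true then (fun x => x 0) else (fun _ => false)) : TF 0) (fun _ => false)) = a := by
      funext k
      cases ha : a k <;> cases hb : b k <;> simp
    rw [e, ha]
    rfl
  · have e : (fun k => (if a k = true then (fun _ => true) else
        (if b k = true then (fun x => x 0) else (fun _ => false)) : TF 0) (fun _ => true)) = b := by
      funext k
      cases ha : a k
      · cases hb : b k <;> simp
      · simp [hab k ha]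
    rw [e]
    simpa using hb

/-- The binary minor attached to two points, with constants. -/
theorem minor_const {E : TFam} (hE : IsClone E)
    (c0 : (fun _ => false : TF 0) ∈ E 0) (c1 : (fun _ => true : TF 0) ∈ E 0) {n : ℕ} {f : TF n}
    (hf : f ∈ E n) (x y : Fin (n + 1) → Bool) :
    Cl2 E (fun p q => f (fun k => if x k = true then (if y k = true then true else p) else
      (if y k = true then q else false))) := by
  have ht := hE.comp n 1 f (fun k => if x k = true then (if y k = true then (fun _ => true) else
    (fun z => z 0)) else (if y k = true then (fun z => z 1) else (fun _ => false))) hf (by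
      intro k
      split_ifs
      · exact const_mem hE true 0 1 c1
      · exact hE.proj 1 0
      · exact hE.proj 1 1
      · exact const_mem hE false 0 1 c0)
  refine Cl2.of_mem hE ht ?_
  intro p q
  congr 1
  funext k
  cases x k <;> cases y k <;> simp

theorem caseA {C D : TFam} (hC : IsClone C) (hD : IsClone D) (h : ∀ n, D n ⊆ C n)
    (c0 : (fun _ => false : TF 0) ∈ D 0) (c1 : (fun _ => true : TF 0) ∈ D 0) : Emb C D := by
  by_cases hLam : ∀ n, ∀ t ∈ D n, ∀ x y, t (fun k => x k && y k) = (t x && t y)
  · exact emb_Lam hD hLam C
  by_cases hVee : ∀ n, ∀ t ∈ D n, ∀ x y, t (fun k => x k || y k) = (t x || t y)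
  · exact emb_Vee hD hVee C
  by_cases hun : ∀ n, ∀ t ∈ D n,
      (∃ b, ∀ x, t x = b) ∨ (∃ k, ∀ x, t x = x k) ∨ ∃ k, ∀ x, t x = !(x k)
  · exact emb_unary hD hun C
  by_cases hmono : ∀ n, ∀ f ∈ D n, Mono f
  · -- `D` is the clone of monotone functions
    have hand : Cl2 D (· && ·) := by
      push Not at hVee
      obtain ⟨n, t, ht, x, y, hne⟩ := hVee
      refine (minor_const hD c0 c1 ht x y).congr ?_
      have hm := hmono n t ht
      have h1 : t x = false := by
        by_contra h1
        have h1' : t x = true := by simpa using h1
        exact hne (by rw [hm x _ (fun k hk => by simp [hk]) h1', h1']; simp)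
      have h2 : t y = false := by
        by_contra h1
        have h1' : t y = true := by simpa using h1
        exact hne (by rw [hm y _ (fun k hk => by simp [hk]) h1', h1']; simp)
      have h3 : t (fun k => x k || y k) = true := by
        rw [h1, h2] at hne
        simpa using hne
      intro p q
      cases p <;> cases q
      · show t (fun k => if x k = true then (if y k = true then true else false) else
          (if y k = true then false else false)) = false
        rw [← Bool.not_eq_true]
        intro h4
        have h4' := hm _ x (fun k hk => by
          revert hk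
          cases x k <;> cases y k <;> simp) h4
        rw [h1] at h4'
        exact absurd h4' (by simp)
      · refine Eq.trans (congrArg t (funext fun k => ?_)) h2
        cases x k <;> cases y k <;> rfl
      · refine Eq.trans (congrArg t (funext fun k => ?_)) h1
        cases x k <;> cases y k <;> rfl
      · refine Eq.trans (congrArg t (funext fun k => ?_)) h3
        cases x k <;> cases y k <;> rfl
    have hor : Cl2 D (· || ·) := by
      push Not at hLam
      obtain ⟨n, t, ht, x, y, hne⟩ := hLam
      refine (minor_const hD c0 c1 ht x y).congr ?_
      have hm := hmono n t ht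
      have h3 : t (fun k => x k && y k) = false := by
        by_contra h3
        have h3' : t (fun k => x k && y k) = true := by simpa using h3
        exact hne (by
          rw [h3', hm _ x (fun k hk => by revert hk; cases x k <;> simp) h3',
            hm _ y (fun k hk => by revert hk; cases x k <;> simp) h3']
          rfl)
      have h12 : t x = true ∧ t y = true := by
        rw [h3] at hne
        revert hne
        cases t x <;> cases t y <;> simp
      intro p q
      cases p <;> cases q
      · refine Eq.trans (congrArg t (funext fun k => ?_)) h3
        cases x k <;> cases y k <;> rfl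
      · refine Eq.trans (congrArg t (funext fun k => ?_)) h12.2
        cases x k <;> cases y k <;> rfl
      · refine Eq.trans (congrArg t (funext fun k => ?_)) h12.1
        cases x k <;> cases y k <;> rfl
      · refine hm x _ (fun k hk => ?_) h12.1
        cases hy : y k <;> simp [hk]
    by_cases hCm : ∀ n, ∀ f ∈ C n, Mono f
    · exact emb_of_sub h (fun n f hf => gen_mon hD hand hor c0 c1 f (hCm n f hf))
    · push Not at hCm
      obtain ⟨n, f, hf, hfm⟩ := hCm
      have hneg := neg_of_not_mono hC (h 0 c0) (h 0 c1) hf hfm
      -- `and` belongs to `C`
      have hand' : Cl2 C (· && ·) := by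
        have h1 := hand 1 _ (hD.proj 1 0) _ (hD.proj 1 1)
        exact Cl2.of_mem hC (h 1 h1) (fun x y => rfl)
      exact emb_all hD h (fun n f => gen_all hC hand' hneg f)
  · push Not at hmono
    obtain ⟨n, f, hf, hfm⟩ := hmono
    have hneg := neg_of_not_mono hD c0 c1 hf hfm
    have hneg' : Cl1 C (! ·) := by
      have h1 := hneg 0 _ (hD.proj 0 0)
      exact Cl1.of_mem hC (h 0 h1) (fun x => rfl)
    by_cases haff : ∀ n, ∀ f ∈ C n, SD f
    · -- everything affine
      push Not at hun
      obtain ⟨m, t, ht, hu⟩ := hun
      obtain ⟨T, hT⟩ := (haff m t (h m ht)).formula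
      obtain ⟨i, hi, j, hj, hij⟩ := two_of_not_unary hT (by
        rintro (⟨b, hb⟩ | ⟨k, hk⟩ | ⟨k, hk⟩)
        · obtain ⟨x, hx⟩ := hu.1 b
          exact hx (hb x)
        · obtain ⟨x, hx⟩ := hu.2.1 k
          exact hx (hk x)
        · obtain ⟨x, hx⟩ := hu.2.2 k
          exact hx (hk x))
      have ht2 := hD.comp m 1 t (fun k => if k = i then (fun z => z 0) else
        (if k = j then (fun z => z 1) else (fun _ => false))) ht (by
          intro k
          split_ifs
          · exact hD.proj 1 0
          · exact hD.proj 1 1
          · exact const_mem hD false 0 1 c0)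
      have hcl : Cl2 D (fun p q => (t (fun _ => false) ^^ (p ^^ q))) := by
        refine Cl2.of_mem hD ht2 ?_
        intro p q
        show t _ = _
        rw [hT]
        congr 1
        have hj' : j ∈ T.erase i := Finset.mem_erase.2 ⟨Ne.symm hij, hj⟩
        rw [par_erase hi, par_erase hj']
        have e : par ((T.erase i).erase j) (fun k => (if k = i then (fun z => z 0) else
            (if k = j then (fun z => z 1) else (fun _ => false)) : TF 1) ![p, q]) = false := by
          refine (par_congr _ _ (fun _ => false) ?_).trans (par_false _)
          intro k hk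
          rw [Finset.mem_erase, Finset.mem_erase] at hk
          simp [hk.1, hk.2.1]
        rw [e]
        simp [Ne.symm hij]
      have hx : Cl2 D (· ^^ ·) := by
        intro m g hg g' hg'
        have h1 := xor_const_mem hneg (t (fun _ => false)) (hcl m g hg g' hg')
        convert h1 using 1
        funext x
        generalize g x = a
        generalize g' x = b
        cases a <;> cases b <;> cases t (fun _ => false) <;> rfl
      exact emb_of_sub h (fun n f hf => gen_L hD hx c1 f (haff n f hf))
    · push Not at haff
      obtain ⟨m, t, ht, hns⟩ := haff
      have hand := and_of_not_SD hC hneg' (h 0 c0) (h 0 c1) ht hns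
      exact emb_all hD h (fun n f => gen_all hC hand hneg' f)

/-! ### Only the constant `false` -/

/-- The binary minor attached to two points, with the constant `false`. -/
theorem minor_zero {E : TFam} (hE : IsClone E)
    (c0 : (fun _ => false : TF 0) ∈ E 0) {n : ℕ} {f : TF n}
    (hf : f ∈ E n) (x y : Fin (n + 1) → Bool) :
    Cl2 E (fun p q => f (fun k => if x k = true then p else
      (if y k = true then q else false))) := by
  have ht := hE.comp n 1 f (fun k => if x k = true then (fun z => z 0)
    else (if y k = true then (fun z => z 1) else (fun _ => false))) hf (by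
      intro k
      split_ifs
      · exact hE.proj 1 0
      · exact hE.proj 1 1
      · exact const_mem hE false 0 1 c0)
  refine Cl2.of_mem hE ht ?_
  intro p q
  congr 1
  funext k
  cases x k <;> cases y k <;> simp

theorem cl2_up {C D : TFam} (hC : IsClone C) (hD : IsClone D) (h : ∀ n, D n ⊆ C n)
    {u : Bool → Bool → Bool} (hu : Cl2 D u) : Cl2 C u :=
  Cl2.of_mem hC (h 1 (hu 1 _ (hD.proj 1 0) _ (hD.proj 1 1))) (fun _ _ => rfl)

theorem cl1_up {C D : TFam} (hC : IsClone C) (hD : IsClone D) (h : ∀ n, D n ⊆ C n)
    {u : Bool → Bool} (hu : Cl1 D u) : Cl1 C u :=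
  Cl1.of_mem hC (h 0 (hu 0 _ (hD.proj 0 0))) (fun _ => rfl)

theorem cl3_up {C D : TFam} (hC : IsClone C) (hD : IsClone D) (h : ∀ n, D n ⊆ C n)
    {u : Bool → Bool → Bool → Bool} (hu : Cl3 D u) : Cl3 C u :=
  Cl3.of_mem hC (h 2 (hu 2 _ (hD.proj 2 0) _ (hD.proj 2 1) _ (hD.proj 2 2)))
    (fun _ _ _ => rfl)

theorem caseB {C D : TFam} (hC : IsClone C) (hD : IsClone D) (h : ∀ n, D n ⊆ C n)
    (c0 : (fun _ => false : TF 0) ∈ D 0) (c1 : (fun _ => true : TF 0) ∉ C 0) : Emb C D := by
  by_cases hT : ∀ n, ∀ t ∈ D n, ∀ x y, t x = true → t y = true → ∃ k, x k = true ∧ y k = true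
  · exact emb_T02 hD hT C
  by_cases hVee : ∀ n, ∀ t ∈ D n, ∀ x y, t (fun k => x k || y k) = (t x || t y)
  · exact emb_Vee hD hVee C
  have hz : ∀ n, ∀ f ∈ C n, f (fun _ => false) = false := by
    intro n f hf
    by_contra hne
    have hne' : f (fun _ => false) = true := by simpa using hne
    apply c1
    have := hC.comp n 0 f (fun _ _ => false) hf (fun _ => h 0 c0)
    rwa [hne'] at this
  -- the conclusion if `xor` belongs to `D`
  have hX : Cl2 D (· ^^ ·) → Emb C D := by
    intro hx
    by_cases haff : ∀ n, ∀ f ∈ C n, SD f
    · exact emb_of_sub h (fun n f hf => gen_L0 hD hx f (haff n f hf) (hz n f hf))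
    · push Not at haff
      obtain ⟨m, t, ht, hns⟩ := haff
      have hx' := cl2_up hC hD h hx
      have hand := and_of_not_SD_xor hC hx' ht (hz m t ht) hns
      exact emb_T0 hD h (fun n f hf => gen_T0 hC hand hx' f hf) c1
  -- `or` or `xor` belongs to `D`
  push Not at hT
  obtain ⟨n, t, ht, x, y, hx, hy, hxy⟩ := hT
  have hm := minor_zero hD c0 ht x y
  have e10 : t (fun k => if x k = true then true else (if y k = true then false else false)) =
      true := by
    refine Eq.trans (congrArg t (funext fun k => ?_)) hx
    cases x k <;> cases y k <;> rfl
  have e01 : t (fun k => if x k = true then false else (if y k = true then true else false)) =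
      true := by
    refine Eq.trans (congrArg t (funext fun k => ?_)) hy
    cases hxk : x k
    · cases y k <;> rfl
    · have := hxy k hxk
      revert this
      cases y k <;> simp
  have e00 : t (fun k => if x k = true then false else (if y k = true then false else false)) =
      false := by
    refine Eq.trans (congrArg t (funext fun k => ?_)) (hz n t (h n ht))
    cases x k <;> cases y k <;> rfl
  cases e11 : t (fun k => if x k = true then true else (if y k = true then true else false))
  · -- `xor`
    apply hX
    refine hm.congr ?_
    intro p q
    cases p <;> cases q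
    · exact e00
    · exact e01
    · exact e10
    · exact e11
  · have hor : Cl2 D (· || ·) := by
      refine hm.congr ?_
      intro p q
      cases p <;> cases q
      · exact e00
      · exact e01
      · exact e10
      · exact e11
    -- from `p ∧ ¬ q` one gets `xor`
    have hX2 : ∀ {E : TFam}, Cl2 E (· || ·) → Cl2 E (fun p q => p && !q) → Cl2 E (· ^^ ·) := by
      intro E ho ha m g hg g' hg'
      have h1 := ho m _ (ha m g hg g' hg') _ (ha m g' hg' g hg)
      convert h1 using 1
      funext x
      generalize g x = a
      generalize g' x = b
      cases a <;> cases b <;> rfl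
    have hor' := cl2_up hC hD h hor
    -- the second step
    push Not at hVee
    obtain ⟨n2, t2, ht2, x2, y2, hne⟩ := hVee
    have ht3 := hD.comp n2 1 t2 (fun k => if x2 k = true then (if y2 k = true then
      (fun z => (z 0 || z 1)) else (fun z => z 0)) else (if y2 k = true then (fun z => z 1) else
      (fun _ => false))) ht2 (by
        intro k
        split_ifs
        · exact hor 1 _ (hD.proj 1 0) _ (hD.proj 1 1)
        · exact hD.proj 1 0
        · exact hD.proj 1 1
        · exact const_mem hD false 0 1 c0)
    have hcl : Cl2 D (fun p q => t2 (fun k => ((x2 k && p) || (y2 k && q)))) := by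
      refine Cl2.of_mem hD ht3 ?_
      intro p q
      congr 1
      funext k
      cases x2 k <;> cases y2 k <;> simp
    have f10 : t2 (fun k => ((x2 k && true) || (y2 k && false))) = t2 x2 := by simp
    have f01 : t2 (fun k => ((x2 k && false) || (y2 k && true))) = t2 y2 := by simp
    have f11 : t2 (fun k => ((x2 k && true) || (y2 k && true))) =
        t2 (fun k => x2 k || y2 k) := by simp
    have f00 : t2 (fun k => ((x2 k && false) || (y2 k && false))) = false := by
      simpa using hz n2 t2 (h n2 ht2)
    rcases hv1 : t2 x2 with _ | _ <;> rcases hv2 : t2 y2 with _ | _ <;>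
      rcases hv3 : t2 (fun k => x2 k || y2 k) with _ | _ <;>
      rw [hv1, hv2, hv3] at hne <;> simp at hne
    · -- `and`
      have hand : Cl2 D (· && ·) := by
        refine hcl.congr ?_
        intro p q
        cases p <;> cases q
        · exact f00
        · exact f01.trans hv2
        · exact f10.trans hv1
        · exact f11.trans hv3
      have hand' := cl2_up hC hD h hand
      by_cases hCm : ∀ n, ∀ f ∈ C n, Mono f
      · exact emb_of_sub h (fun n f hf => gen_mon0 hD hand hor c0 f (hCm n f hf) (hz n f hf))
      · push Not at hCm
        obtain ⟨m, f, hf, hfm⟩ := hCm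
        unfold Mono at hfm
        push Not at hfm
        obtain ⟨a, b, hab, ha, hb⟩ := hfm
        have hb' : f b = false := by simpa using hb
        have hm2 := minor_zero hC (h 0 c0) hf a b
        have hpq : Cl2 C (fun p q => p && !q) := by
          intro l g hg g' hg'
          have h1 := hand' l g hg _ (hm2 l g hg g' hg')
          convert h1 using 1
          funext w
          generalize g w = p
          generalize g' w = q
          have k10 : f (fun k => if a k = true then true else
              (if b k = true then false else false)) = true := by
            refine Eq.trans (congrArg f (funext fun k => ?_)) ha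
            cases a k <;> cases b k <;> rfl
          have k11 : f (fun k => if a k = true then true else
              (if b k = true then true else false)) = false := by
            refine Eq.trans (congrArg f (funext fun k => ?_)) hb'
            cases hak : a k
            · cases b k <;> rfl
            · simp [hab k hak]
          cases p
          · rfl
          · cases q
            · exact (congrArg (fun b => (true && b)) k10).symm
            · exact (congrArg (fun b => (true && b)) k11).symm
        have hx' := hX2 hor' hpq
        exact emb_T0 hD h (fun n f hf => gen_T0 hC hand' hx' f hf) c1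
    · -- values 0, 1, 0
      apply hX
      refine hX2 hor ?_
      intro l g hg g' hg'
      have h1 := hcl l g' hg' g hg
      convert h1 using 1
      funext w
      generalize g w = p
      generalize g' w = q
      cases p <;> cases q
      · exact f00.symm
      · exact (f10.trans hv1).symm
      · exact (f01.trans hv2).symm
      · exact (f11.trans hv3).symm
    · -- values 1, 0, 0
      apply hX
      refine hX2 hor (hcl.congr ?_)
      intro p q
      cases p <;> cases q
      · exact f00
      · exact f01.trans hv2
      · exact f10.trans hv1
      · exact f11.trans hv3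
    · -- values 1, 1, 0
      apply hX
      refine hcl.congr ?_
      intro p q
      cases p <;> cases q
      · exact f00
      · exact f01.trans hv2
      · exact f10.trans hv1
      · exact f11.trans hv3

end Pool.Agent.Q266.SPC
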