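import Pool.Agent.Q266.SPC.Main

/-!
# Order embeddings between all intervals of strong partial clones: clones without constants
-/

set_option autoImplicit false

namespace Pool.Agent.Q266.SPC

/-- The unary minor of a function. -/
theorem unary_minor {E : TFam} (hE : IsClone E) {n : ℕ} {f : TF n} (hf : f ∈ E n) :
    Cl1 E (fun p => f (fun _ => p)) :=
  Cl1.of_mem hE (hE.comp n 0 f (fun _ x => x 0) hf (fun _ => hE.proj 0 0)) (fun _ => rfl)

/-- No constants and negation: all functions are self-dual. -/
theorem sdual_of_neg {C : TFam} (hC : IsClone C) (hn : Cl1 C (! ·))
    (hc : ∀ b : Bool, (fun _ => b : TF 0) ∉ C 0) : ∀ n, ∀ f ∈ C n, SDual f := by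
  intro n f hf a
  by_contra hne
  have he : f (fun k => !(a k)) = f a := by
    revert hne
    cases f (fun k => !(a k)) <;> cases f a <;> simp
  apply hc (f a)
  have ht := hC.comp n 0 f (fun k => if a k = true then (fun x => x 0) else (fun x => !(x 0))) hf
    (by
      intro k
      split_ifs
      · exact hC.proj 0 0
      · exact hn 0 _ (hC.proj 0 0))
  convert ht using 1
  funext x
  cases hx : x 0
  · rw [← he]
    congr 1
    funext k
    cases a k <;> simp [hx]
  · congr 1
    funext k
    cases a k <;> simp [hx]

theorem caseE1 {C D : TFam} (hC : IsClone C) (hD : IsClone D) (h : ∀ n, D n ⊆ C n)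
    (hc : ∀ b : Bool, (fun _ => b : TF 0) ∉ C 0) (hn : (fun x => !(x 0) : TF 0) ∈ D 0) :
    Emb C D := by
  by_cases hun : ∀ n, ∀ t ∈ D n,
      (∃ b, ∀ x, t x = b) ∨ (∃ k, ∀ x, t x = x k) ∨ ∃ k, ∀ x, t x = !(x k)
  · exact emb_unary hD hun C
  have hneg : Cl1 D (! ·) := Cl1.of_mem hD hn (fun _ => rfl)
  have hneg' := cl1_up hC hD h hneg
  have hS := sdual_of_neg hC hneg' hc
  by_cases haff : ∀ n, ∀ f ∈ C n, SD f
  · push Not at hun
    obtain ⟨m, t, ht, hu⟩ := hun
    obtain ⟨T, hT⟩ := (haff m t (h m ht)).formula
    obtain ⟨i, hi, j, hj, hij⟩ := two_of_not_unary hT (by
      rintro (⟨b, hb⟩ | ⟨k, hk⟩ | ⟨k, hk⟩)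
      · obtain ⟨x, hx⟩ := hu.1 b
        exact hx (hb x)
      · obtain ⟨x, hx⟩ := hu.2.1 k
        exact hx (hk x)
      · obtain ⟨x, hx⟩ := hu.2.2 k
        exact hx (hk x))
    have hj' : j ∈ T.erase i := Finset.mem_erase.2 ⟨Ne.symm hij, hj⟩
    have hodd : par T (fun _ => true) = true := by
      have e1 := hT (fun _ => true)
      have e2 := hS m t (h m ht) (fun _ => false)
      simp only [Bool.not_false] at e2
      rw [e2] at e1
      revert e1
      cases t (fun _ => false) <;> cases par T (fun _ => true) <;> simp
    have hrest : ∀ z : Bool, par ((T.erase i).erase j) (fun _ => z) = z := by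
      intro z
      cases z
      · exact par_false _
      · rw [par_erase hi, par_erase hj'] at hodd
        simpa using hodd
    have ht2 := hD.comp m 2 t (fun k => if k = i then (fun z => z 0) else
      (if k = j then (fun z => z 1) else (fun z => z 2))) ht (by
        intro k
        split_ifs
        · exact hD.proj 2 0
        · exact hD.proj 2 1
        · exact hD.proj 2 2)
    have hcl : Cl3 D (fun p q r => (t (fun _ => false) ^^ (mnr p q r))) := by
      refine Cl3.of_mem hD ht2 ?_
      intro p q r
      show t _ = _
      rw [hT]
      congr 1
      rw [par_erase hi, par_erase hj']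
      have e : par ((T.erase i).erase j) (fun k => (if k = i then (fun z => z 0) else
          (if k = j then (fun z => z 1) else (fun z => z 2)) : TF 2) ![p, q, r]) = r := by
        refine (par_congr _ _ (fun _ => r) ?_).trans (hrest r)
        intro k hk
        rw [Finset.mem_erase, Finset.mem_erase] at hk
        simp [hk.1, hk.2.1]
      rw [e]
      simp only [mnr, if_true]
      rw [if_neg (Ne.symm hij)]
      simp
    have hx : Cl3 D mnr := by
      intro l g hg g' hg' g'' hg''
      have h1 := xor_const_mem hneg (t (fun _ => false)) (hcl l g hg g' hg' g'' hg'')
      convert h1 using 1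
      funext x
      show mnr (g x) (g' x) (g'' x) =
        ((t (fun _ => false) ^^ mnr (g x) (g' x) (g'' x)) ^^ t (fun _ => false))
      generalize mnr (g x) (g' x) (g'' x) = a
      cases a <;> cases t (fun _ => false) <;> rfl
    exact emb_of_sub h (fun n f hf => gen_LS hD hx hneg f (haff n f hf) (hS n f hf))
  · push Not at haff
    obtain ⟨m, t, ht, hns⟩ := haff
    have hmaj := maj_of_not_SD_neg hC hneg' ht (hS m t ht) hns
    exact emb_S hC hD h (fun n f hf => gen_S hC hmaj hneg' f hf) hS

/-- No constants, no negation: all functions are idempotent. -/
theorem idem_of {C : TFam} (hC : IsClone C) (hc : ∀ b : Bool, (fun _ => b : TF 0) ∉ C 0)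
    (hn : (fun x => !(x 0) : TF 0) ∉ C 0) {n : ℕ} {f : TF n} (hf : f ∈ C n) :
    f (fun _ => false) = false ∧ f (fun _ => true) = true := by
  have h1 := unary_minor hC hf 0 _ (hC.proj 0 0)
  have e : ∀ (p q : Bool), f (fun _ => false) = p → f (fun _ => true) = q →
      (fun x : Fin 1 → Bool => f (fun _ => x 0)) = fun x => if x 0 = true then q else p := by
    intro p q hp hq
    funext x
    cases x 0
    · simpa using hp
    · simpa using hq
  rcases h2 : f (fun _ => false) with _ | _ <;> rcases h3 : f (fun _ => true) with _ | _
  · exfalso
    apply hc false
    have e1 := e _ _ h2 h3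
    have h1' : (fun x : Fin 1 → Bool => f (fun _ => x 0)) ∈ C 0 := h1
    rw [e1] at h1'
    convert h1' using 1
    funext x
    simp
  · exact ⟨rfl, rfl⟩
  · exfalso
    apply hn
    have e1 := e _ _ h2 h3
    have h1' : (fun x : Fin 1 → Bool => f (fun _ => x 0)) ∈ C 0 := h1
    rw [e1] at h1'
    convert h1' using 1
    funext x
    cases x 0 <;> rfl
  · exfalso
    apply hc true
    have e1 := e _ _ h2 h3
    have h1' : (fun x : Fin 1 → Bool => f (fun _ => x 0)) ∈ C 0 := h1
    rw [e1] at h1'
    convert h1' using 1
    funext x
    simp

/-- The ternary minor attached to two points. -/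
theorem minor3 {E : TFam} (hE : IsClone E) {n : ℕ} {f : TF n} (hf : f ∈ E n)
    (x y : Fin (n + 1) → Bool) :
    Cl3 E (fun p q r => f (fun k => if x k = true then p else
      (if y k = true then q else r))) := by
  have ht := hE.comp n 2 f (fun k => if x k = true then (fun z => z 0)
    else (if y k = true then (fun z => z 1) else (fun z => z 2))) hf (by
      intro k
      split_ifs
      · exact hE.proj 2 0
      · exact hE.proj 2 1
      · exact hE.proj 2 2)
  refine Cl3.of_mem hE ht ?_
  intro p q r
  congr 1
  funext k
  cases x k <;> cases y k <;> simp

theorem caseE2 {C D : TFam} (hC : IsClone C) (hD : IsClone D) (h : ∀ n, D n ⊆ C n)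
    (hc : ∀ b : Bool, (fun _ => b : TF 0) ∉ C 0) (hn : (fun x => !(x 0) : TF 0) ∉ C 0) :
    Emb C D := by
  by_cases hT : ∀ n, ∀ t ∈ D n, ∀ x y, t x = true → t y = true → ∃ k, x k = true ∧ y k = true
  · exact emb_T02 hD hT C
  by_cases hT' : ∀ n, ∀ t ∈ D n, ∀ x y, t x = false → t y = false →
      ∃ k, x k = false ∧ y k = false
  · exact emb_T12 hD hT' C
  have i0 : ∀ n, ∀ f ∈ C n, f (fun _ => false) = false := fun n f hf => (idem_of hC hc hn hf).1
  have i1 : ∀ n, ∀ f ∈ C n, f (fun _ => true) = true := fun n f hf => (idem_of hC hc hn hf).2
  -- a ternary function with values true at 100 and 010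
  obtain ⟨g, hg, g100, g010, g000, g111⟩ : ∃ g : Bool → Bool → Bool → Bool, Cl3 D g ∧
      g true false false = true ∧ g false true false = true ∧ g false false false = false ∧
      g true true true = true := by
    push Not at hT
    obtain ⟨n, t, ht, x, y, hx, hy, hxy⟩ := hT
    refine ⟨_, minor3 hD ht x y, ?_, ?_, ?_, ?_⟩
    · refine Eq.trans (congrArg t (funext fun k => ?_)) hx
      cases x k <;> cases y k <;> rfl
    · refine Eq.trans (congrArg t (funext fun k => ?_)) hy
      cases hxk : x k
      · cases y k <;> rfl
      · have := hxy k hxk
        revert this
        cases y k <;> simp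
    · refine Eq.trans (congrArg t (funext fun k => ?_)) (i0 n t (h n ht))
      cases x k <;> cases y k <;> rfl
    · refine Eq.trans (congrArg t (funext fun k => ?_)) (i1 n t (h n ht))
      cases x k <;> cases y k <;> rfl
  -- a ternary function with values false at 011 and 101
  obtain ⟨g', hg', k011, k101, k000, k111⟩ : ∃ g : Bool → Bool → Bool → Bool, Cl3 D g ∧
      g false true true = false ∧ g true false true = false ∧ g false false false = false ∧
      g true true true = true := by
    push Not at hT'
    obtain ⟨n, t, ht, x, y, hx, hy, hxy⟩ := hT'
    refine ⟨_, minor3 hD ht (fun k => !(x k)) (fun k => !(y k)), ?_, ?_, ?_, ?_⟩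
    · refine Eq.trans (congrArg t (funext fun k => ?_)) hx
      cases x k <;> cases y k <;> rfl
    · refine Eq.trans (congrArg t (funext fun k => ?_)) hy
      cases hxk : x k
      · have := hxy k hxk
        revert this
        cases y k <;> simp
      · cases y k <;> rfl
    · refine Eq.trans (congrArg t (funext fun k => ?_)) (i0 n t (h n ht))
      cases x k <;> cases y k <;> rfl
    · refine Eq.trans (congrArg t (funext fun k => ?_)) (i1 n t (h n ht))
      cases x k <;> cases y k <;> rfl
  have hgC := cl3_up hC hD h hg
  have hgC' := cl3_up hC hD h hg'
  by_cases hao : Cl2 C (· && ·) ∨ Cl2 C (· || ·)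
  · -- both `and` and `or`
    have hboth : Cl2 C (· && ·) ∧ Cl2 C (· || ·) := by
      rcases hao with ha | ho
      · refine ⟨ha, ?_⟩
        intro n f hf f' hf'
        have h1 := hgC n f hf f' hf' _ (ha n f hf f' hf')
        convert h1 using 1
        funext x
        generalize f x = p
        generalize f' x = q
        cases p <;> cases q
        · exact g000.symm
        · exact g010.symm
        · exact g100.symm
        · exact g111.symm
      · refine ⟨?_, ho⟩
        intro n f hf f' hf'
        have h1 := hgC' n f hf f' hf' _ (ho n f hf f' hf')
        convert h1 using 1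
        funext x
        generalize f x = p
        generalize f' x = q
        cases p <;> cases q
        · exact k000.symm
        · exact k011.symm
        · exact k101.symm
        · exact k111.symm
    obtain ⟨hand, hor⟩ := hboth
    by_cases hm : ∀ n, ∀ f ∈ C n, Mono f
    · -- `D` contains both
      have hmg : ∀ p q r p' q' r', (p = true → p' = true) → (q = true → q' = true) →
          (r = true → r' = true) → g p q r = true → g p' q' r' = true := by
        intro p q r p' q' r' h1 h2 h3 h4
        have h5 := hg 2 _ (hD.proj 2 0) _ (hD.proj 2 1) _ (hD.proj 2 2)
        exact hm 2 _ (h 2 h5) ![p, q, r] ![p', q', r'] (by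
          intro k
          fin_cases k
          · exact h1
          · exact h2
          · exact h3) h4
      have hmg' : ∀ p q r p' q' r', (p = true → p' = true) → (q = true → q' = true) →
          (r = true → r' = true) → g' p q r = true → g' p' q' r' = true := by
        intro p q r p' q' r' h1 h2 h3 h4
        have h5 := hg' 2 _ (hD.proj 2 0) _ (hD.proj 2 1) _ (hD.proj 2 2)
        exact hm 2 _ (h 2 h5) ![p, q, r] ![p', q', r'] (by
          intro k
          fin_cases k
          · exact h1
          · exact h2
          · exact h3) h4
      have g101 : g true false true = true :=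
        hmg true false false true false true id id (by simp) g100
      have k010 : g' false true false = false := by
        rw [← Bool.not_eq_true]
        intro h1
        have := hmg' false true false false true true id id (by simp) h1
        rw [k011] at this
        exact absurd this (by simp)
      have hor' : Cl2 D (· || ·) := by
        intro n f hf f' hf'
        have h1 := hg n f hf f' hf' f hf
        convert h1 using 1
        funext x
        generalize f x = p
        generalize f' x = q
        cases p <;> cases q
        · exact g000.symm
        · exact g010.symm
        · exact g101.symm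
        · exact g111.symm
      have hand' : Cl2 D (· && ·) := by
        intro n f hf f' hf'
        have h1 := hg' n f hf f' hf' f hf
        convert h1 using 1
        funext x
        generalize f x = p
        generalize f' x = q
        cases p <;> cases q
        · exact k000.symm
        · exact k010.symm
        · exact k101.symm
        · exact k111.symm
      exact emb_of_sub h (fun n f hf => gen_K hD hand' hor' f (hm n f hf) (i0 n f hf) (i1 n f hf))
    · push Not at hm
      obtain ⟨n, f, hf, hfm⟩ := hm
      unfold Mono at hfm
      push Not at hfm
      obtain ⟨a, b, hab, ha, hb⟩ := hfm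
      have hb' : f b = false := by simpa using hb
      -- pattern: (1,1) to the third, (0,1) to the second, (0,0) to the first variable
      have hm3 := minor3 hC hf a b
      -- values: first argument for a = 1, second for (0,1), third for (0,0)
      have v1 : f (fun k => if a k = true then true else (if b k = true then false else false)) =
          true := by
        refine Eq.trans (congrArg f (funext fun k => ?_)) ha
        cases a k <;> cases b k <;> rfl
      have v2 : f (fun k => if a k = true then true else (if b k = true then true else false)) =
          false := by
        refine Eq.trans (congrArg f (funext fun k => ?_)) hb'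
        cases hak : a k
        · cases b k <;> rfl
        · simp [hab k hak]
      have v0 : f (fun k => if a k = true then false else (if b k = true then false else false)) =
          false := by
        refine Eq.trans (congrArg f (funext fun k => ?_)) (i0 n f hf)
        cases a k <;> cases b k <;> rfl
      have v3 : f (fun k => if a k = true then true else (if b k = true then true else true)) =
          true := by
        refine Eq.trans (congrArg f (funext fun k => ?_)) (i1 n f hf)
        cases a k <;> cases b k <;> rfl
      have hk : Cl3 C (fun x y z => z && (!y || x)) := by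
        intro l p1 hp1 p2 hp2 p3 hp3
        have q1 := hand l _ hp2 _ hp3
        have q2 := hand l _ hp1 _ q1
        have h1 := hm3 l _ hp3 _ q1 _ q2
        convert h1 using 1
        funext w
        generalize p1 w = x
        generalize p2 w = y
        generalize p3 w = z
        cases z
        · cases x <;> cases y <;> exact v0.symm
        · cases y
          · cases x <;> exact v1.symm
          · cases x
            · exact v2.symm
            · exact v3.symm
      exact emb_T01 hC hD h (fun n f h0 h1 => gen_T01 hC hand hor hk f h0 h1) i0 i1
  · -- neither: everything is self-dual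
    have hS : ∀ n, ∀ f ∈ C n, SDual f := by
      intro n f hf a
      by_contra hne
      have he : f (fun k => !(a k)) = f a := by
        revert hne
        cases f (fun k => !(a k)) <;> cases f a <;> simp
      have hm := minor3 hC hf a (fun _ => true)
      have hm2 : Cl2 C (fun p q => f (fun k => if a k = true then p else q)) := by
        intro l p1 hp1 p2 hp2
        have h1 := hm l p1 hp1 p2 hp2 p2 hp2
        convert h1 using 1
        funext w
        show f _ = f _
        refine congrArg f (funext fun k => ?_)
        cases a k <;> rfl
      apply hao
      have v10 : f (fun k => if a k = true then true else false) = f a := by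
        congr 1
        funext k
        cases a k <;> rfl
      have v01 : f (fun k => if a k = true then false else true) = f a := by
        rw [← he]
        congr 1
        funext k
        cases a k <;> rfl
      have v00 : f (fun k => if a k = true then false else false) = false := by
        refine Eq.trans (congrArg f (funext fun k => ?_)) (i0 n f hf)
        cases a k <;> rfl
      have v11 : f (fun k => if a k = true then true else true) = true := by
        refine Eq.trans (congrArg f (funext fun k => ?_)) (i1 n f hf)
        cases a k <;> rfl
      cases hfa : f a
      · left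
        refine hm2.congr ?_
        intro p q
        cases p <;> cases q
        · exact v00
        · exact v01.trans hfa
        · exact v10.trans hfa
        · exact v11
      · right
        refine hm2.congr ?_
        intro p q
        cases p <;> cases q
        · exact v00
        · exact v01.trans hfa
        · exact v10.trans hfa
        · exact v11
    -- the minority function belongs to `D`
    have hdual : ∀ p q r, g (!p) (!q) (!r) = !(g p q r) := by
      intro p q r
      have h5 := hg 2 _ (hD.proj 2 0) _ (hD.proj 2 1) _ (hD.proj 2 2)
      exact hS 2 _ (h 2 h5) ![p, q, r]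
    have g011 : g false true true = false := by
      have := hdual true false false
      rw [g100] at this
      exact this
    have g101 : g true false true = false := by
      have := hdual false true false
      rw [g010] at this
      exact this
    have hmnr : Cl3 D mnr := by
      cases g001 : g false false true
      · have g110 : g true true false = true := by
          have := hdual false false true
          rw [g001] at this
          exact this
        -- `g` is majority with negated last argument
        have hmaj : Cl3 D maj := by
          intro l p1 hp1 p2 hp2 p3 hp3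
          have h1 := hg l _ hp1 _ hp2 _ (hg l _ hp1 _ hp2 _ hp3)
          convert h1 using 1
          funext w
          generalize p1 w = x
          generalize p2 w = y
          generalize p3 w = z
          cases x <;> cases y <;> cases z <;>
            simp [g000, g001, g010, g011, g100, g101, g110, g111, maj]
        intro l p1 hp1 p2 hp2 p3 hp3
        have h1 := hg l _ hp3 _ (hg l _ hp1 _ hp2 _ hp3) _ (hmaj l _ hp1 _ hp2 _ hp3)
        convert h1 using 1
        funext w
        generalize p1 w = x
        generalize p2 w = y
        generalize p3 w = z
        cases x <;> cases y <;> cases z <;>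
          simp [g000, g001, g010, g011, g100, g101, g110, g111, maj, mnr]
      · have g110 : g true true false = false := by
          have := hdual false false true
          rw [g001] at this
          exact this
        refine hg.congr ?_
        intro x y z
        cases x <;> cases y <;> cases z <;>
          simp [g000, g001, g010, g011, g100, g101, g110, g111, mnr]
    have hmnr' := cl3_up hC hD h hmnr
    by_cases haff : ∀ n, ∀ f ∈ C n, SD f
    · exact emb_of_sub h (fun n f hf => gen_L01 hD hmnr f (haff n f hf) (i0 n f hf) (i1 n f hf))
    · push Not at haff
      obtain ⟨m, t, ht, hns⟩ := haff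
      have hmaj := maj_of_not_SD hC hS i1 ht hns
      exact emb_D1 hC hD h (fun n f hs h0 h1 => gen_D1 hC hmaj hmnr' f hs h0 h1) hS i0 i1

/-- For Boolean clones `D ⊆ C` there is an order embedding of `IStr C` into `IStr D`. -/
theorem main {C D : TFam} (hC : IsClone C) (hD : IsClone D) (h : ∀ n, D n ⊆ C n) : Emb C D := by
  -- constants
  by_cases hc : ∃ c : Bool, (fun _ => c : TF 0) ∈ C 0 ∧ (fun _ => c : TF 0) ∉ D 0
  · obtain ⟨c, h1, h2⟩ := hc
    exact emb_of_const hC hD h c h1 h2
  push Not at hc
  by_cases h0 : (fun _ => false : TF 0) ∈ D 0
  · by_cases h1 : (fun _ => true : TF 0) ∈ D 0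
    · exact caseA hC hD h h0 h1
    · exact caseB hC hD h h0 (fun h2 => h1 (hc true h2))
  · by_cases h1 : (fun _ => true : TF 0) ∈ D 0
    · -- dual of the previous case
      apply emb_dual
      refine caseB (isClone_dual hC) (isClone_dual hD) (fun n f hf => h n hf) ?_ ?_
      · show dT _ ∈ D 0
        have e : dT (fun _ => false : TF 0) = fun _ => true := by
          funext x
          simp [dT]
        rw [e]
        exact h1
      · intro h2
        have h2' : dT (fun _ => true : TF 0) ∈ C 0 := h2
        have e : dT (fun _ => true : TF 0) = fun _ => false := by
          funext x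
          simp [dT]
        rw [e] at h2'
        exact h0 (hc false h2')
    · -- no constants
      have hcC : ∀ b : Bool, (fun _ => b : TF 0) ∉ C 0 := by
        intro b hb
        have := hc b hb
        cases b
        · exact h0 this
        · exact h1 this
      by_cases hn : (fun x => !(x 0) : TF 0) ∈ D 0
      · exact caseE1 hC hD h hcC hn
      · by_cases hn' : (fun x => !(x 0) : TF 0) ∈ C 0
        · exact emb_of_neg hC hD h hn' hn (fun h2 => h1 h2.1)
        · exact caseE2 hC hD h hcC hn'

end Pool.Agent.Q266.SPC
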