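import Pool.Agent.Q266.SPC.Base

/-!
# Embedding the power set of `ℕ` in an interval of strong partial clones
-/

set_option autoImplicit false

namespace Pool.Agent.Q266.SPC

/-- The partial functions preserving the relation `ρ`. -/
def pPol {V : Type} (ρ : Set (V → Bool)) : Fam := fun n => {f |
  ∀ (M : Fin (n + 1) → V → Bool) (r : V → Bool), (∀ i, M i ∈ ρ) →
    (∀ v, f (fun i => M i v) = some (r v)) → r ∈ ρ}

theorem pPol_proj {V : Type} (ρ : Set (V → Bool)) (n : ℕ) (i : Fin (n + 1)) :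
    (fun x : Fin (n + 1) → Bool => some (x i)) ∈ pPol ρ n := by
  intro M r hM hr
  have : r = M i := by
    funext v
    exact (Option.some.inj (hr v)).symm
  rw [this]
  exact hM i

theorem pPol_comp {V : Type} (ρ : Set (V → Bool)) (n m : ℕ) (f : PF n) (g : Fin (n + 1) → PF m)
    (h : PF m) (hf : f ∈ pPol ρ n) (hg : ∀ i, g i ∈ pPol ρ m) (hc : IsComp h f g) :
    h ∈ pPol ρ m := by
  intro M r hM hr
  have h1 : ∀ v, ∃ y : Fin (n + 1) → Bool,
      (∀ i, g i (fun j => M j v) = some (y i)) ∧ f y = some (r v) := fun v => (hc _ _).1 (hr v)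
  choose y hy hfy using h1
  exact hf (fun i v => y v i) r (fun i => hg i M (fun v => y v i) hM (fun v => hy v i)) hfy

theorem pPol_strong {V : Type} (ρ : Set (V → Bool)) (n : ℕ) (f h : PF n) (hf : f ∈ pPol ρ n)
    (hb : Below h f) : h ∈ pPol ρ n := by
  intro M r hM hr
  exact hf M r hM (fun v => hb _ _ (hr v))

/-- The members of `Q D` that preserve the relations with index outside `I`. -/
def Z (D : TFam) {V : ℕ → Type} (ρ : ∀ i, Set (V i → Bool)) (I : Set ℕ) : Fam := fun n =>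
  {g | g ∈ Q D n ∧ ∀ j, j ∉ I → g ∈ pPol (ρ j) n}

theorem Z_mem {D : TFam} (hD : IsClone D) {V : ℕ → Type} (ρ : ∀ i, Set (V i → Bool))
    (hρ : ∀ i n, ∀ t ∈ D n, (fun x => some (t x)) ∈ pPol (ρ i) n) (I : Set ℕ) :
    Z D ρ I ∈ IStr D := by
  have hQ := Q_mem hD
  refine ⟨⟨fun n i => ⟨hQ.1.proj n i, fun j _ => pPol_proj (ρ j) n i⟩, ?_⟩, ?_, ?_⟩
  · intro n m f g k hf hg hc
    exact ⟨hQ.1.comp n m f g k hf.1 (fun i => (hg i).1) hc, fun j hj =>
      pPol_comp (ρ j) n m f g k (hf.2 j hj) (fun i => (hg i).2 j hj) hc⟩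
  · intro n f k hf hb
    exact ⟨hQ.2.1 n f k hf.1 hb, fun j hj => pPol_strong (ρ j) n f k (hf.2 j hj) hb⟩
  · intro n f
    constructor
    · intro hf
      exact ⟨(hQ.2.2 n f).1 hf, fun j _ => hρ j n f hf⟩
    · intro hf
      exact (hQ.2.2 n f).2 hf.1

/-- An independent family of partial functions and relations gives embeddings of all intervals. -/
theorem emb_of_family {D : TFam} (hD : IsClone D) {V : ℕ → Type} (ρ : ∀ i, Set (V i → Bool))
    (a : ℕ → ℕ) (f : ∀ i, PF (a i))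
    (hρ : ∀ i n, ∀ t ∈ D n, (fun x => some (t x)) ∈ pPol (ρ i) n)
    (hQ : ∀ i, f i ∈ Q D (a i)) (hne : ∀ i, f i ∉ pPol (ρ i) (a i))
    (hoff : ∀ i j, i ≠ j → f i ∈ pPol (ρ j) (a i)) (C : TFam) : Emb C D := by
  obtain ⟨e, he⟩ := exists_injective_nat (Σ n, PF n)
  have hZ : ∀ I J : Set ℕ, (∀ n, Z D ρ I n ⊆ Z D ρ J n) → I ⊆ J := by
    intro I J h i hi
    by_contra hj
    have h1 : f i ∈ Z D ρ I (a i) := by
      refine ⟨hQ i, fun j hj' => hoff i j ?_⟩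
      rintro rfl
      exact hj' hi
    exact hne i ((h (a i) h1).2 i hj)
  have hZ' : ∀ I J : Set ℕ, I ⊆ J → ∀ n, Z D ρ I n ⊆ Z D ρ J n := by
    intro I J h n g hg
    exact ⟨hg.1, fun j hj => hg.2 j (fun hi => hj (h hi))⟩
  let S : Fam → Set ℕ := fun X => {k | ∃ n, ∃ g ∈ X n, e ⟨n, g⟩ = k}
  have hS : ∀ X Y : Fam, S X ⊆ S Y → ∀ n, X n ⊆ Y n := by
    intro X Y h n g hg
    have h1 : e ⟨n, g⟩ ∈ S X := ⟨n, g, hg, rfl⟩
    obtain ⟨m, k, hk, h2⟩ := h h1
    have h3 := he h2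
    cases h3
    exact hk
  have hS' : ∀ X Y : Fam, (∀ n, X n ⊆ Y n) → S X ⊆ S Y := by
    rintro X Y h _ ⟨n, g, hg, rfl⟩
    exact ⟨n, g, h n hg, rfl⟩
  refine ⟨⟨⟨fun X => ⟨Z D ρ (S X.1), Z_mem hD ρ hρ _⟩, ?_⟩, ?_⟩⟩
  · intro X Y hXY
    have e1 : Z D ρ (S X.1) = Z D ρ (S Y.1) := congrArg Subtype.val hXY
    apply Subtype.ext
    funext n
    apply Set.Subset.antisymm
    · exact hS _ _ (hZ _ _ (fun n => by rw [e1])) n
    · exact hS _ _ (hZ _ _ (fun n => by rw [e1])) n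
  · intro X Y
    constructor
    · intro h
      exact hS _ _ (hZ _ _ h)
    · intro h
      exact hZ' _ _ (hS' _ _ h)

end Pool.Agent.Q266.SPC
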